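import Mathlib

set_option autoImplicit false

namespace Pool.Agent.Helper29.MG

/-! ### Odd closed walks -/

section Walks

variable {α : Type}

/-- The cyclically consecutive pairs of a list. -/
def steps (l : List α) : List (α × α) := l.zip (l.rotate 1)

lemma chain_parity (g : α → Bool) : ∀ (l : List α) (x y : α),
    (∀ p ∈ (x :: l).zip (l ++ [y]), g p.1 ≠ g p.2) →
    g y = xor (g x) (decide ((l.length + 1) % 2 = 1)) := by
  intro l
  induction l with
  | nil =>
    intro x y h
    have h1 := h (x, y) (by simp)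
    have hy : g y = !(g x) := (Bool.eq_not_of_ne (fun e => h1 e.symm))
    rw [hy]
    cases g x <;> rfl
  | cons z l ih =>
    intro x y h
    have h1 := h (x, z) (by simp)
    have h2 := ih z y (by
      intro p hp
      apply h p
      simp only [List.cons_append, List.zip_cons_cons, List.mem_cons]
      exact Or.inr hp)
    rw [h2]
    have hz : g z = !(g x) := (Bool.eq_not_of_ne (fun e => h1 e.symm))
    rw [hz]
    rcases Nat.mod_two_eq_zero_or_one (l.length + 1) with h3 | h3
    · have e1 : decide ((l.length + 1) % 2 = 1) = false := decide_eq_false (by omega)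
      have e2 : decide (((z :: l).length + 1) % 2 = 1) = true :=
        decide_eq_true (by simp only [List.length_cons]; omega)
      rw [e1, e2]
      cases g x <;> rfl
    · have e1 : decide ((l.length + 1) % 2 = 1) = true := decide_eq_true (by omega)
      have e2 : decide (((z :: l).length + 1) % 2 = 1) = false :=
        decide_eq_false (by simp only [List.length_cons]; omega)
      rw [e1, e2]
      cases g x <;> rfl

/-- A two-colouring of an odd closed walk has a monochromatic step. -/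
lemma odd_step (g : α → Bool) (l : List α) (h : l.length % 2 = 1) :
    ∃ p ∈ steps l, g p.1 = g p.2 := by
  by_contra hcon
  push Not at hcon
  cases l with
  | nil => simp at h
  | cons x l =>
    have h1 := chain_parity g l x x (by
      intro p hp
      apply hcon p
      simpa [steps] using hp)
    simp only [List.length_cons] at h
    rw [h] at h1
    cases hx : g x <;> rw [hx] at h1 <;> simp at h1

end Walks

/-! ### The graph -/

/-- The edges of the graph. -/
def edges : List (ℕ × ℕ) :=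
  [(0, 1), (0, 13), (0, 14), (0, 15), (0, 16), (0, 17), (0, 18), (1, 4), (1, 5), (1, 6), (1, 7),
    (1, 8), (1, 9), (2, 4), (2, 5), (2, 6), (2, 10), (2, 11), (2, 12), (2, 19), (2, 20), (3, 4),
    (3, 5), (3, 6), (3, 10), (3, 11), (3, 12), (3, 19), (3, 20), (7, 10), (7, 13), (8, 11),
    (8, 14), (9, 12), (9, 15), (10, 16), (11, 17), (12, 18), (19, 20)]

/-- Boolean adjacency. -/
def adjB (i j : Fin 21) : Bool :=
  edges.contains (i.val, j.val) || edges.contains (j.val, i.val)

/-- The graph `H` on 21 vertices. -/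
def H : SimpleGraph (Fin 21) where
  Adj i j := adjB i j = true
  symm := ⟨fun i j h => by
    unfold adjB at h ⊢
    rw [Bool.or_comm]; exact h⟩
  loopless := ⟨by decide +kernel⟩

instance : DecidableRel H.Adj := fun i j => inferInstanceAs (Decidable (adjB i j = true))

/-- Seven odd cycles. -/
def L : List (List (Fin 21)) :=
  [[2, 19, 20], [1, 4, 3, 10, 7], [0, 14, 8, 11, 17], [0, 15, 9, 12, 18], [1, 5, 3, 11, 8],
    [1, 4, 2, 10, 7], [3, 19, 20]]

/-- Three families of three odd cycles through a common vertex. -/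
def Fams : List (List (Fin 21) × List (Fin 21) × List (Fin 21)) :=
  [([0, 13, 7, 10, 16], [0, 14, 8, 11, 17], [0, 15, 9, 12, 18]),
    ([1, 4, 2, 10, 7], [1, 5, 2, 11, 8], [1, 6, 2, 12, 9]),
    ([1, 4, 3, 10, 7], [1, 5, 3, 11, 8], [1, 6, 3, 12, 9])]

/-- Odd closed walk in `H`. -/
def OddWalk (l : List (Fin 21)) : Prop := l.length % 2 = 1 ∧ ∀ p ∈ steps l, H.Adj p.1 p.2

instance (l : List (Fin 21)) : Decidable (OddWalk l) := by unfold OddWalk; infer_instance

lemma L_valid : ∀ l ∈ L, OddWalk l := by decide +kernel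

lemma Fams_valid : ∀ F ∈ Fams, OddWalk F.1 ∧ OddWalk F.2.1 ∧ OddWalk F.2.2 := by decide +kernel

/-- The neighbours of `c` along the closed walk `l`. -/
def nbrs (c : Fin 21) (l : List (Fin 21)) : List (Fin 21) :=
  ((steps l).filter (fun p => p.1 = c ∨ p.2 = c)).map (fun p => if p.1 = c then p.2 else p.1)

lemma two_avoid : ∀ s t : Fin 21, ∃ l ∈ L, s ∉ l ∧ t ∉ l := by decide +kernel

/-- Boolean test that the family avoids `s`, `t` and its members are separated at `c`. -/
def goodB (s t c : Fin 21) (F : List (Fin 21) × List (Fin 21) × List (Fin 21)) : Bool :=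
  (!F.1.contains s && !F.1.contains t) && (!F.2.1.contains s && !F.2.1.contains t) &&
  (!F.2.2.contains s && !F.2.2.contains t) &&
  (nbrs c F.1).all (fun x => !(nbrs c F.2.1).contains x) &&
  (nbrs c F.1).all (fun x => !(nbrs c F.2.2).contains x) &&
  (nbrs c F.2.1).all (fun x => !(nbrs c F.2.2).contains x)

/-- Boolean test. -/
def chk (s t c : Fin 21) : Bool :=
  L.any (fun l => !l.contains s && !l.contains t && !l.contains c) ||
  Fams.any (fun F => goodB s t c F)

lemma chk_all : ∀ s t c : Fin 21, s ≠ t → ¬ H.Adj s t → c ≠ s → c ≠ t → chk s t c = true := by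
  decide +kernel

lemma three_avoid (s t c : Fin 21) (hst : s ≠ t) (h : ¬ H.Adj s t) (h1 : c ≠ s) (h2 : c ≠ t) :
    (∃ l ∈ L, s ∉ l ∧ t ∉ l ∧ c ∉ l) ∨
    ∃ F ∈ Fams, ((s ∉ F.1 ∧ t ∉ F.1) ∧ (s ∉ F.2.1 ∧ t ∉ F.2.1) ∧ (s ∉ F.2.2 ∧ t ∉ F.2.2)) ∧
      (∀ x ∈ nbrs c F.1, x ∉ nbrs c F.2.1) ∧ (∀ x ∈ nbrs c F.1, x ∉ nbrs c F.2.2) ∧
      (∀ x ∈ nbrs c F.2.1, x ∉ nbrs c F.2.2) := by
  have h3 := chk_all s t c hst h h1 h2
  unfold chk at h3
  rw [Bool.or_eq_true] at h3
  rcases h3 with h3 | h3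
  · left
    rw [List.any_eq_true] at h3
    obtain ⟨l, hl, h4⟩ := h3
    simp only [Bool.and_eq_true, Bool.not_eq_true', List.contains_eq_mem,
      decide_eq_false_iff_not] at h4
    exact ⟨l, hl, h4.1.1, h4.1.2, h4.2⟩
  · right
    rw [List.any_eq_true] at h3
    obtain ⟨F, hF, h4⟩ := h3
    refine ⟨F, hF, ?_⟩
    unfold goodB at h4
    simp only [Bool.and_eq_true, Bool.not_eq_true', List.contains_eq_mem,
      decide_eq_false_iff_not, List.all_eq_true] at h4
    obtain ⟨⟨⟨⟨⟨a1, a2⟩, a3⟩, a4⟩, a5⟩, a6⟩ := h4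
    exact ⟨⟨a1, a2, a3⟩, a4, a5, a6⟩

lemma mem_of_mem_steps {α : Type} {l : List α} {p : α × α} (h : p ∈ steps l) :
    p.1 ∈ l ∧ p.2 ∈ l := by
  obtain ⟨a, b⟩ := p
  have := List.of_mem_zip h
  exact ⟨this.1, List.mem_rotate.mp this.2⟩

/-! ### The graphs of the decomposition family -/

/-- The graph `(M ∪ E_t) ∇ T_{p-1}((p-1)t)`. -/
def J {m : ℕ} (M : SimpleGraph (Fin m)) (p t : ℕ) : SimpleGraph (Fin m ⊕ (Fin p × Fin t)) :=
  SimpleGraph.fromRel (fun x y : Fin m ⊕ (Fin p × Fin t) =>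
        Sum.elim (fun a => Sum.elim (fun b => M.Adj a b) (fun q => q.1.val ≠ 0) y)
          (fun q => Sum.elim (fun _ => q.1.val ≠ 0) (fun q' => q.1 ≠ q'.1) y) x)

/-- The side of a vertex when `p = 2`. -/
def cls {m t : ℕ} : Fin m ⊕ (Fin 2 × Fin t) → Bool
  | .inl _ => false
  | .inr q => decide (q.1 = 1)

lemma J_of_cls {m t : ℕ} {M : SimpleGraph (Fin m)} {x y : Fin m ⊕ (Fin 2 × Fin t)}
    (h : cls x ≠ cls y) : (J M 2 t).Adj x y := by
  rw [J, SimpleGraph.fromRel_adj]
  refine ⟨fun e => h (by rw [e]), ?_⟩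
  rcases x with a | ⟨i, s⟩ <;> rcases y with b | ⟨j, r⟩
  · exact absurd rfl h
  · left
    simp only [cls] at h
    simp only [Sum.elim_inl, Sum.elim_inr]
    intro e
    apply h
    have : j = 0 := Fin.ext e
    rw [this]; rfl
  · left
    simp only [cls] at h
    simp only [Sum.elim_inl, Sum.elim_inr]
    intro e
    apply h
    have : i = 0 := Fin.ext e
    rw [this]; rfl
  · left
    simp only [cls] at h
    simp only [Sum.elim_inr]
    intro e
    apply h
    rw [e]

lemma J_inl {m t : ℕ} {M : SimpleGraph (Fin m)} {a b : Fin m} (h : M.Adj a b) :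
    (J M 2 t).Adj (.inl a) (.inl b) := by
  rw [J, SimpleGraph.fromRel_adj]
  refine ⟨fun e => h.ne (Sum.inl.inj e), Or.inl ?_⟩
  simpa using h

lemma J_mono {m t : ℕ} {M : SimpleGraph (Fin m)} {x y : Fin m ⊕ (Fin 2 × Fin t)}
    (h : (J M 2 t).Adj x y) (hc : cls x = cls y) :
    ∃ a b, x = .inl a ∧ y = .inl b ∧ M.Adj a b := by
  rw [J, SimpleGraph.fromRel_adj] at h
  obtain ⟨hne, h⟩ := h
  rcases x with a | ⟨i, s⟩ <;> rcases y with b | ⟨j, r⟩
  · refine ⟨a, b, rfl, rfl, ?_⟩
    simp only [Sum.elim_inl] at h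
    rcases h with h | h
    · exact h
    · exact h.symm
  · exfalso
    simp only [Sum.elim_inl, Sum.elim_inr, or_self] at h
    simp only [cls] at hc
    fin_cases j
    · exact h rfl
    · simp at hc
  · exfalso
    simp only [Sum.elim_inl, Sum.elim_inr, or_self] at h
    simp only [cls] at hc
    fin_cases i
    · exact h rfl
    · simp at hc
  · exfalso
    simp only [Sum.elim_inr] at h
    simp only [cls] at hc
    have hij : i ≠ j := by
      rcases h with h | h
      · exact h
      · exact h.symm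
    fin_cases i <;> fin_cases j <;> simp_all

/-- A copy of `H` forces a monochromatic edge on every odd closed walk. -/
lemma walk_edge {m t : ℕ} {M : SimpleGraph (Fin m)} (c : SimpleGraph.Copy H (J M 2 t))
    {l : List (Fin 21)} (hl : OddWalk l) :
    ∃ p ∈ steps l, ∃ a b, c p.1 = .inl a ∧ c p.2 = .inl b ∧ M.Adj a b := by
  obtain ⟨p, hp, hc⟩ := odd_step (fun x => cls (c x)) l hl.1
  have hadj : (J M 2 t).Adj (c p.1) (c p.2) := c.toHom.map_adj (hl.2 p hp)
  exact ⟨p, hp, J_mono hadj hc⟩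

lemma card_cover {m t : ℕ} {M : SimpleGraph (Fin m)} (c : SimpleGraph.Copy H (J M 2 t))
    (S : Finset (Fin m)) (hS : ∀ a b, M.Adj a b → a ∈ S ∨ b ∈ S) : 3 ≤ S.card := by
  classical
  by_contra hcon
  have hS2 : S.card ≤ 2 := by omega
  set P : Finset (Fin 21) := Finset.univ.filter (fun x => ∃ a ∈ S, c x = .inl a) with hP
  have hPc : P.card ≤ 2 := by
    refine le_trans ?_ hS2
    refine Finset.card_le_card_of_surjOn (s := S)
      (fun a => if h : ∃ x, c x = .inl a then h.choose else 0) ?_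
    intro x hx
    have hx' : ∃ a ∈ S, c x = .inl a := by simpa [hP] using hx
    obtain ⟨a, ha, hxa⟩ := hx'
    refine ⟨a, ha, ?_⟩
    have hex : ∃ x, c x = .inl a := ⟨x, hxa⟩
    simp only [hex, dif_pos]
    apply c.injective
    exact (hex.choose_spec).trans hxa.symm
  obtain ⟨P', hPP', hP'⟩ := Finset.exists_superset_card_eq hPc (by simp)
  obtain ⟨s, t', -, hst⟩ := Finset.card_eq_two.mp hP'
  obtain ⟨l, hl, hs, ht⟩ := two_avoid s t'
  obtain ⟨p, hp, a, b, ha, hb, hab⟩ := walk_edge c (L_valid l hl)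
  have hmem := mem_of_mem_steps hp
  have key : ∀ x ∈ l, ∀ a ∈ S, c x ≠ .inl a := by
    intro x hx a ha hxa
    have : x ∈ P' := hPP' (by rw [hP, Finset.mem_filter]; exact ⟨Finset.mem_univ _, a, ha, hxa⟩)
    rw [hst] at this
    simp only [Finset.mem_insert, Finset.mem_singleton] at this
    rcases this with h | h
    · exact hs (h ▸ hx)
    · exact ht (h ▸ hx)
  rcases hS a b hab with h | h
  · exact key _ hmem.1 a h ha
  · exact key _ hmem.2 b h hb

/-! ### Minimal members -/

lemma copy_edges {k m : ℕ} {K : SimpleGraph (Fin k)} {M : SimpleGraph (Fin m)}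
    (f : SimpleGraph.Copy K M) (he : M.edgeSet.ncard ≤ K.edgeSet.ncard) {x y : Fin m}
    (h : M.Adj x y) : ∃ a b, K.Adj a b ∧ f a = x ∧ f b = y := by
  classical
  have h1 : (Sym2.map f '' K.edgeSet).ncard = K.edgeSet.ncard :=
    Set.ncard_image_of_injective _ (Sym2.map.injective f.injective)
  have h2 : Sym2.map f '' K.edgeSet ⊆ M.edgeSet := by
    rintro _ ⟨e, he, rfl⟩
    induction e with
    | h a b => exact f.toHom.map_adj he
  have h3 : Sym2.map f '' K.edgeSet = M.edgeSet :=
    Set.eq_of_subset_of_ncard_le h2 (by rw [h1]; exact he) (Set.toFinite _)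
  have h4 : s(x, y) ∈ Sym2.map f '' K.edgeSet := by rw [h3]; exact h
  obtain ⟨e, he1, he2⟩ := h4
  induction e with
  | h a b =>
    rw [Sym2.map_mk, Sym2.eq_iff] at he2
    rcases he2 with ⟨e1, e2⟩ | ⟨e1, e2⟩
    · exact ⟨a, b, he1, e1, e2⟩
    · exact ⟨b, a, K.symm.symm _ _ he1, e2, e1⟩

lemma copy_inverse {k m : ℕ} {K : SimpleGraph (Fin k)} {M : SimpleGraph (Fin m)}
    (f : SimpleGraph.Copy K M) (he : M.edgeSet.ncard ≤ K.edgeSet.ncard)
    (hf : Function.Surjective f) : M.IsContained K := by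
  choose g hg using hf
  refine ⟨⟨⟨g, ?_⟩, ?_⟩⟩
  · intro x y hxy
    obtain ⟨a, b, hab, ha, hb⟩ := copy_edges f he hxy
    have e1 : g x = a := f.injective (by rw [SimpleGraph.Copy.toHom_apply, SimpleGraph.Copy.toHom_apply, hg, ha])
    have e2 : g y = b := f.injective (by rw [SimpleGraph.Copy.toHom_apply, SimpleGraph.Copy.toHom_apply, hg, hb])
    rw [e1, e2]; exact hab
  · intro x y hxy
    have hxy' : g x = g y := hxy
    rw [← hg x, ← hg y, hxy']

lemma ncard_edges_le {k m : ℕ} {K : SimpleGraph (Fin k)} {M : SimpleGraph (Fin m)}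
    (f : SimpleGraph.Copy K M) : K.edgeSet.ncard ≤ M.edgeSet.ncard := by
  classical
  have h1 : (Sym2.map f '' K.edgeSet).ncard = K.edgeSet.ncard :=
    Set.ncard_image_of_injective _ (Sym2.map.injective f.injective)
  have h2 : Sym2.map f '' K.edgeSet ⊆ M.edgeSet := by
    rintro _ ⟨e, he, rfl⟩
    induction e with
    | h a b => exact f.toHom.map_adj he
  rw [← h1]
  exact Set.ncard_le_ncard h2 (Set.toFinite _)

/-- Below every member of a family there is a minimal member. -/
lemma exists_min (Dec : (m : ℕ) → SimpleGraph (Fin m) → Prop) {m : ℕ} {M : SimpleGraph (Fin m)}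
    (hM : Dec m M) : ∃ (m' : ℕ) (M' : SimpleGraph (Fin m')), (Dec m' M' ∧
      ∀ (m'' : ℕ) (M'' : SimpleGraph (Fin m'')), M''.IsContained M' → Dec m'' M'' →
        M'.IsContained M'') ∧ M'.IsContained M := by
  classical
  have hex : ∃ r : ℕ, ∃ (m' : ℕ) (M' : SimpleGraph (Fin m')), Dec m' M' ∧ M'.IsContained M ∧
      m' + M'.edgeSet.ncard = r := ⟨_, m, M, hM, SimpleGraph.IsContained.refl M, rfl⟩
  obtain ⟨m', M', h1, h2, h3⟩ := Nat.find_spec hex
  refine ⟨m', M', ⟨h1, ?_⟩, h2⟩
  rintro m'' M'' h4 h5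
  have hmin := Nat.find_min' hex ⟨m'', M'', h5, h4.trans h2, rfl⟩
  rw [← h3] at hmin
  obtain ⟨f⟩ := h4
  have h6 := ncard_edges_le f
  have h7 : m'' ≤ m' := by
    have := Fintype.card_le_of_injective f f.injective
    simpa using this
  have h8 : m'' = m' := by omega
  have h9 : M'.edgeSet.ncard ≤ M''.edgeSet.ncard := by omega
  subst h8
  exact copy_inverse f h9 (Finite.surjective_of_injective f.injective)

/-! ### The matching -/

/-- The matching with four edges. -/
def M0 : SimpleGraph (Fin 8) where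
  Adj i j := i.val / 2 = j.val / 2 ∧ i ≠ j
  symm := ⟨fun _ _ h => ⟨h.1.symm, h.2.symm⟩⟩
  loopless := ⟨fun _ h => h.2 rfl⟩

instance : DecidableRel M0.Adj := fun i j =>
  inferInstanceAs (Decidable (i.val / 2 = j.val / 2 ∧ i ≠ j))

lemma M0_perfect : ∀ v, ∃! w, M0.Adj v w := by
  have h : ∀ v : Fin 8, ∃ w, M0.Adj v w ∧ ∀ y, M0.Adj v y → y = w := by decide +kernel
  exact h

lemma M0_edges : M0.edgeSet.ncard = 4 := by
  rw [← SimpleGraph.coe_edgeFinset, Set.ncard_coe_finset]
  decide +kernel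

/-- Membership test for a map into `J`. -/
def okPair {m t : ℕ} (adj : Fin m → Fin m → Bool) (x y : Fin m ⊕ (Fin 2 × Fin t)) : Bool :=
  (cls x != cls y) ||
  match x, y with
  | .inl a, .inl b => adj a b
  | _, _ => false

lemma J_of_okPair {m t : ℕ} {M : SimpleGraph (Fin m)} [DecidableRel M.Adj]
    {x y : Fin m ⊕ (Fin 2 × Fin t)} (h : okPair (fun a b => decide (M.Adj a b)) x y = true) :
    (J M 2 t).Adj x y := by
  unfold okPair at h
  rw [Bool.or_eq_true] at h
  rcases h with h | h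
  · exact J_of_cls (by simpa using h)
  · rcases x with a | q <;> rcases y with b | r
    · exact J_inl (by simpa using h)
    · simp at h
    · simp at h
    · simp at h

/-- The embedding of `H` showing that the matching belongs to the family. -/
def phi0 : Fin 21 → Fin 8 ⊕ (Fin 2 × Fin 21) := fun x =>
  match x.val with
  | 7 => .inl 0
  | 10 => .inl 1
  | 8 => .inl 2
  | 11 => .inl 3
  | 9 => .inl 4
  | 12 => .inl 5
  | 19 => .inl 6
  | 20 => .inl 7
  | 0 => .inr (0, x)
  | 4 => .inr (0, x)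
  | 5 => .inr (0, x)
  | 6 => .inr (0, x)
  | _ => .inr (1, x)

lemma dec_M0 : H.IsContained (J M0 2 21) := by
  have h1 : ∀ x y, H.Adj x y →
      okPair (fun a b => decide (M0.Adj a b)) (phi0 x) (phi0 y) = true := by decide +kernel
  have h2 : ∀ x y, phi0 x = phi0 y → x = y := by decide +kernel
  exact ⟨⟨⟨phi0, fun {x y} h => J_of_okPair (h1 x y h)⟩, fun x y h => h2 x y h⟩⟩

/-- Four pairwise edge-disjoint odd cycles. -/
def C4 : Fin 4 → List (Fin 21)
  | 0 => [0, 13, 7, 10, 16]
  | 1 => [0, 14, 8, 11, 17]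
  | 2 => [0, 15, 9, 12, 18]
  | 3 => [2, 19, 20]

lemma C4_valid : ∀ i, OddWalk (C4 i) := by decide +kernel

lemma C4_disjoint : ∀ i j, i ≠ j → ∀ p ∈ steps (C4 i), ∀ q ∈ steps (C4 j),
    ¬ (p.1 = q.1 ∧ p.2 = q.2) ∧ ¬ (p.1 = q.2 ∧ p.2 = q.1) := by decide +kernel

lemma four_edges {m t : ℕ} {M : SimpleGraph (Fin m)} (c : SimpleGraph.Copy H (J M 2 t)) :
    4 ≤ M.edgeSet.ncard := by
  classical
  have h := fun i => walk_edge c (C4_valid i)
  choose p hp a b ha hb hab using h
  have hinj : Function.Injective (fun i => s(a i, b i)) := by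
    intro i j hij
    by_contra hne
    have h1 := C4_disjoint i j hne (p i) (hp i) (p j) (hp j)
    simp only [Sym2.eq_iff] at hij
    rcases hij with ⟨e1, e2⟩ | ⟨e1, e2⟩
    · apply h1.1
      constructor
      · apply c.injective
        exact (ha i).trans (by rw [e1]; exact (ha j).symm)
      · apply c.injective
        exact (hb i).trans (by rw [e2]; exact (hb j).symm)
    · apply h1.2
      constructor
      · apply c.injective
        exact (ha i).trans (by rw [e1]; exact (hb j).symm)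
      · apply c.injective
        exact (hb i).trans (by rw [e2]; exact (ha j).symm)
  have h2 : Set.range (fun i => s(a i, b i)) ⊆ M.edgeSet := by
    rintro _ ⟨i, rfl⟩
    exact hab i
  have h3 := Set.ncard_le_ncard h2 (Set.toFinite _)
  have h4 : (Set.range (fun i => s(a i, b i))).ncard = 4 := by
    rw [← Set.image_univ, Set.ncard_image_of_injective _ hinj, Set.ncard_univ]
    simp
  omega

lemma M0_min {m t : ℕ} {M : SimpleGraph (Fin m)} (hM : M.IsContained M0)
    (c : SimpleGraph.Copy H (J M 2 t)) : M0.IsContained M := by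
  obtain ⟨f⟩ := hM
  have he : M0.edgeSet.ncard ≤ M.edgeSet.ncard := by rw [M0_edges]; exact four_edges c
  apply copy_inverse f he
  intro v
  obtain ⟨w, hw, -⟩ := M0_perfect v
  obtain ⟨a, b, -, ha, -⟩ := copy_edges f he hw
  exact ⟨a, ha⟩

/-! ### A member with an independent covering of size three -/

/-- One side of the bipartition of `H - {0, 2, 3}`. -/
def side (x : Fin 21) : Bool :=
  [1, 10, 11, 12, 13, 14, 15, 19].contains x.val

/-- The subgraph of `H` off that side. -/
def M1 : SimpleGraph (Fin 21) where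
  Adj x y := H.Adj x y ∧ side x = false ∧ side y = false
  symm := ⟨fun _ _ h => ⟨h.1.symm, h.2.2, h.2.1⟩⟩
  loopless := ⟨fun _ h => h.1.ne rfl⟩

instance : DecidableRel M1.Adj := fun x y =>
  inferInstanceAs (Decidable (H.Adj x y ∧ side x = false ∧ side y = false))

/-- The embedding. -/
def phi1 (x : Fin 21) : Fin 21 ⊕ (Fin 2 × Fin 21) :=
  if side x = true then .inr (1, x) else .inl x

lemma dec_M1 : H.IsContained (J M1 2 21) := by
  have h1 : ∀ x y, H.Adj x y →
      okPair (fun a b => decide (M1.Adj a b)) (phi1 x) (phi1 y) = true := by decide +kernel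
  have h2 : ∀ x y, phi1 x = phi1 y → x = y := by decide +kernel
  exact ⟨⟨⟨phi1, fun {x y} h => J_of_okPair (h1 x y h)⟩, fun x y h => h2 x y h⟩⟩

/-- The independent covering. -/
def S1 : Finset (Fin 21) := {0, 2, 3}

lemma S1_cover : ∀ a b, M1.Adj a b → a ∈ S1 ∨ b ∈ S1 := by decide +kernel

lemma S1_indep : ∀ a ∈ S1, ∀ b ∈ S1, ¬ M1.Adj a b := by decide +kernel

/-! ### Joins -/

/-- The join of two graphs, as written in the frozen statement. -/
def Jn {α β : Type} (G : SimpleGraph α) (K : SimpleGraph β) : SimpleGraph (α ⊕ β) :=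
  SimpleGraph.fromRel (fun x y : α ⊕ β =>
        Sum.elim (fun a => Sum.elim (fun b => G.Adj a b) (fun _ => True) y)
          (fun a => Sum.elim (fun _ => True) (fun b => K.Adj a b) y) x)

section Joins

variable {α β : Type} {G : SimpleGraph α} {K : SimpleGraph β}

lemma Jn_inl_inl {a b : α} : (Jn G K).Adj (.inl a) (.inl b) ↔ G.Adj a b := by
  rw [Jn, SimpleGraph.fromRel_adj]
  simp only [Sum.elim_inl]
  constructor
  · rintro ⟨-, h | h⟩
    · exact h
    · exact h.symm
  · intro h
    exact ⟨fun e => h.ne (Sum.inl.inj e), Or.inl h⟩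

lemma Jn_inr_inr {a b : β} : (Jn G K).Adj (.inr a) (.inr b) ↔ K.Adj a b := by
  rw [Jn, SimpleGraph.fromRel_adj]
  simp only [Sum.elim_inr]
  constructor
  · rintro ⟨-, h | h⟩
    · exact h
    · exact h.symm
  · intro h
    exact ⟨fun e => h.ne (Sum.inr.inj e), Or.inl h⟩

lemma Jn_inl_inr {a : α} {b : β} : (Jn G K).Adj (.inl a) (.inr b) := by
  rw [Jn, SimpleGraph.fromRel_adj]
  exact ⟨by simp, Or.inl (by simp)⟩

lemma Jn_inr_inl {a : α} {b : β} : (Jn G K).Adj (.inr b) (.inl a) := Jn_inl_inr.symm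

end Joins

/-! ### The competitor -/

/-- The Turan graph `T_2(k)` with the two extra edges `{0,2}` and `{0,4}`. -/
def K2 (k : ℕ) : SimpleGraph (Fin k) where
  Adj x y := x.val % 2 ≠ y.val % 2 ∨ (x.val = 0 ∧ (y.val = 2 ∨ y.val = 4)) ∨
    (y.val = 0 ∧ (x.val = 2 ∨ x.val = 4))
  symm := ⟨fun x y h => by
    rcases h with h | h | h
    · exact Or.inl h.symm
    · exact Or.inr (Or.inr h)
    · exact Or.inr (Or.inl h)⟩
  loopless := ⟨fun x h => by
    rcases h with h | h | h
    · exact h rfl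
    · omega
    · omega⟩

/-- Parity of the position, used as a colouring. -/
def par {k : ℕ} : Fin 2 ⊕ Fin k → Bool
  | .inl _ => false
  | .inr q => decide (q.val % 2 = 0)

lemma K2_mono {k : ℕ} {x y : Fin k} (h : (K2 k).Adj x y) (hp : x.val % 2 = y.val % 2) :
    (x.val = 0 ∧ (y.val = 2 ∨ y.val = 4)) ∨ (y.val = 0 ∧ (x.val = 2 ∨ x.val = 4)) := by
  rcases h with h | h
  · exact absurd hp h
  · exact h

/-- On an odd closed walk avoiding the preimages of the two joined vertices some step uses an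
extra edge. -/
lemma walk_extra {k : ℕ} (c : SimpleGraph.Copy H (Jn (⊥ : SimpleGraph (Fin 2)) (K2 k)))
    {l : List (Fin 21)} (hl : OddWalk l) (havoid : ∀ x ∈ l, ∀ a, c x ≠ .inl a) :
    ∃ p ∈ steps l, ∃ u v : Fin k, c p.1 = .inr u ∧ c p.2 = .inr v ∧
      ((u.val = 0 ∧ (v.val = 2 ∨ v.val = 4)) ∨ (v.val = 0 ∧ (u.val = 2 ∨ u.val = 4))) := by
  obtain ⟨p, hp, hc⟩ := odd_step (fun x => par (c x)) l hl.1
  have hadj : (Jn (⊥ : SimpleGraph (Fin 2)) (K2 k)).Adj (c p.1) (c p.2) :=
    c.toHom.map_adj (hl.2 p hp)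
  have hmem := mem_of_mem_steps hp
  refine ⟨p, hp, ?_⟩
  rcases h1 : c p.1 with a | u
  · exact absurd h1 (havoid _ hmem.1 a)
  rcases h2 : c p.2 with b | v
  · exact absurd h2 (havoid _ hmem.2 b)
  rw [h1, h2] at hc
  rw [h1, h2, Jn_inr_inr] at hadj
  refine ⟨u, v, rfl, rfl, K2_mono hadj ?_⟩
  simp only [par, decide_eq_decide] at hc
  omega

lemma mem_nbrs {l : List (Fin 21)} {p : Fin 21 × Fin 21} (hp : p ∈ steps l) :
    p.2 ∈ nbrs p.1 l ∧ p.1 ∈ nbrs p.2 l := by
  unfold nbrs
  constructor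
  · rw [List.mem_map]
    exact ⟨p, by rw [List.mem_filter]; exact ⟨hp, by simp⟩, by simp⟩
  · rw [List.mem_map]
    refine ⟨p, by rw [List.mem_filter]; exact ⟨hp, by simp⟩, ?_⟩
    by_cases h : p.1 = p.2
    · rw [if_pos h, h]
    · rw [if_neg h]

/-- The competitor is `H`-free. -/
lemma competitor_free {k : ℕ} : ¬ H.IsContained (Jn (⊥ : SimpleGraph (Fin 2)) (K2 k)) := by
  classical
  rintro ⟨c⟩
  set P : Finset (Fin 21) := Finset.univ.filter (fun x => ∃ a, c x = .inl a) with hP
  have hmemP : ∀ x, x ∈ P ↔ ∃ a, c x = .inl a := by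
    intro x; rw [hP, Finset.mem_filter]; simp
  have hPc : P.card ≤ 2 := by
    have : P.card ≤ (Finset.univ : Finset (Fin 2)).card := by
      refine Finset.card_le_card_of_surjOn
        (fun a => if h : ∃ x, c x = .inl a then h.choose else 0) ?_
      intro x hx
      obtain ⟨a, hxa⟩ := (hmemP x).mp hx
      refine ⟨a, Finset.mem_coe.mpr (Finset.mem_univ _), ?_⟩
      have hex : ∃ x, c x = .inl a := ⟨x, hxa⟩
      simp only [hex, dif_pos]
      apply c.injective
      exact (hex.choose_spec).trans hxa.symm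
    simpa using this
  -- the centre of the extra edges
  obtain ⟨c0, hc0⟩ : ∃ c0 : Fin 21, ∀ x : Fin 21, ∀ u : Fin k, c x = .inr u → u.val = 0 → x = c0 := by
    by_cases hex : ∃ x : Fin 21, ∃ u : Fin k, c x = .inr u ∧ u.val = 0
    · obtain ⟨x0, u0, h1, h2⟩ := hex
      refine ⟨x0, fun x u hx hu => ?_⟩
      apply c.injective
      have : u = u0 := Fin.ext (by rw [hu, h2])
      exact hx.trans (by rw [this]; exact h1.symm)
    · refine ⟨0, fun x u hx hu => absurd ⟨x, u, hx, hu⟩ hex⟩
  -- a walk avoiding everything is impossible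
  have kill : ∀ l, OddWalk l → (∀ x ∈ P, x ∉ l) → c0 ∉ l → False := by
    intro l hl hPl hc0l
    obtain ⟨p, hp, u, v, hu, hv, h⟩ := walk_extra c hl
      (fun x hx a hxa => hPl x ((hmemP x).mpr ⟨a, hxa⟩) hx)
    have hmem := mem_of_mem_steps hp
    rcases h with h | h
    · exact hc0l (hc0 _ u hu h.1 ▸ hmem.1)
    · exact hc0l (hc0 _ v hv h.1 ▸ hmem.2)
  rcases Nat.lt_or_ge P.card 2 with hlt | hge
  · -- at most one vertex
    obtain ⟨P', hPP', hP'⟩ := Finset.exists_superset_card_eq (n := 1) (s := P) (by omega) (by simp)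
    obtain ⟨s, hs⟩ := Finset.card_eq_one.mp hP'
    obtain ⟨l, hl, h1, h2⟩ := two_avoid s c0
    refine kill l (L_valid l hl) ?_ h2
    intro x hx hxl
    have : x ∈ P' := hPP' hx
    rw [hs, Finset.mem_singleton] at this
    exact h1 (this ▸ hxl)
  · obtain ⟨s, t, hst, hPst⟩ := Finset.card_eq_two.mp (le_antisymm hPc hge)
    have hsP : s ∈ P := by rw [hPst]; simp
    have htP : t ∈ P := by rw [hPst]; simp
    have hnadj : ¬ H.Adj s t := by
      intro hadj
      obtain ⟨a, ha⟩ := (hmemP s).mp hsP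
      obtain ⟨b, hb⟩ := (hmemP t).mp htP
      have h1 : (Jn (⊥ : SimpleGraph (Fin 2)) (K2 k)).Adj (c s) (c t) := c.toHom.map_adj hadj
      rw [ha, hb, Jn_inl_inl] at h1
      exact h1
    have hPl : ∀ l : List (Fin 21), s ∉ l → t ∉ l → ∀ x ∈ P, x ∉ l := by
      intro l h1 h2 x hx hxl
      rw [hPst] at hx
      simp only [Finset.mem_insert, Finset.mem_singleton] at hx
      rcases hx with h | h
      · exact h1 (h ▸ hxl)
      · exact h2 (h ▸ hxl)
    by_cases hcs : c0 = s
    · obtain ⟨l, hl, h1, h2⟩ := two_avoid s t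
      exact kill l (L_valid l hl) (hPl l h1 h2) (hcs ▸ h1)
    by_cases hct : c0 = t
    · obtain ⟨l, hl, h1, h2⟩ := two_avoid s t
      exact kill l (L_valid l hl) (hPl l h1 h2) (hct ▸ h2)
    rcases three_avoid s t c0 hst hnadj hcs hct with ⟨l, hl, h1, h2, h3⟩ | ⟨F, hF, hav, d1, d2, d3⟩
    · exact kill l (L_valid l hl) (hPl l h1 h2) h3
    · obtain ⟨v1, v2, v3⟩ := Fams_valid F hF
      -- each walk yields a neighbour of the centre mapped to `2` or `4`
      have get : ∀ l, OddWalk l → s ∉ l → t ∉ l →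
          ∃ x ∈ nbrs c0 l, ∃ v : Fin k, c x = .inr v ∧ (v.val = 2 ∨ v.val = 4) := by
        intro l hl h1 h2
        obtain ⟨p, hp, u, v, hu, hv, h⟩ := walk_extra c hl
          (fun x hx a hxa => hPl l h1 h2 x ((hmemP x).mpr ⟨a, hxa⟩) hx)
        have hn := mem_nbrs hp
        rcases h with h | h
        · have e := hc0 _ u hu h.1
          exact ⟨p.2, e ▸ hn.1, v, hv, h.2⟩
        · have e := hc0 _ v hv h.1
          exact ⟨p.1, e ▸ hn.2, u, hu, h.2⟩
      obtain ⟨x1, hx1, w1, hw1, e1⟩ := get _ v1 hav.1.1 hav.1.2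
      obtain ⟨x2, hx2, w2, hw2, e2⟩ := get _ v2 hav.2.1.1 hav.2.1.2
      obtain ⟨x3, hx3, w3, hw3, e3⟩ := get _ v3 hav.2.2.1 hav.2.2.2
      have n12 : x1 ≠ x2 := fun h => d1 x1 hx1 (h ▸ hx2)
      have n13 : x1 ≠ x3 := fun h => d2 x1 hx1 (h ▸ hx3)
      have n23 : x2 ≠ x3 := fun h => d3 x2 hx2 (h ▸ hx3)
      have inj : ∀ x y : Fin 21, ∀ u v : Fin k, c x = .inr u → c y = .inr v → u.val = v.val → x = y := by
        intro x y u v hx hy huv
        apply c.injective
        exact hx.trans (by rw [Fin.ext huv]; exact hy.symm)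
      rcases e1 with e1 | e1 <;> rcases e2 with e2 | e2 <;> rcases e3 with e3 | e3
      · exact n12 (inj _ _ _ _ hw1 hw2 (by rw [e1, e2]))
      · exact n12 (inj _ _ _ _ hw1 hw2 (by rw [e1, e2]))
      · exact n13 (inj _ _ _ _ hw1 hw3 (by rw [e1, e3]))
      · exact n23 (inj _ _ _ _ hw2 hw3 (by rw [e2, e3]))
      · exact n23 (inj _ _ _ _ hw2 hw3 (by rw [e2, e3]))
      · exact n13 (inj _ _ _ _ hw1 hw3 (by rw [e1, e3]))
      · exact n12 (inj _ _ _ _ hw1 hw2 (by rw [e1, e2]))
      · exact n12 (inj _ _ _ _ hw1 hw2 (by rw [e1, e2]))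

/-! ### An extra edge next to an adjacent pair gives a copy of `H` -/

/-- Bipartition of `H - {0, 1}` with the single bad edge `{19, 20}`. -/
def col (x : Fin 21) : ℕ :=
  if [2, 3, 7, 8, 9, 16, 17, 18].contains x.val then 1 else 0

lemma edge_cases : ∀ x y, H.Adj x y →
    (x.val ≤ 1 ∨ y.val ≤ 1) ∨ (x = 19 ∧ y = 20) ∨ (x = 20 ∧ y = 19) ∨
      (col x ≠ col y ∧ ((x ≠ 19 ∧ x ≠ 20) ∨ (y ≠ 19 ∧ y ≠ 20))) := by decide +kernel

lemma edge_low : ∀ x y, H.Adj x y → x.val ≤ 1 → y.val ≤ 1 → (x = 0 ∧ y = 1) ∨ (x = 1 ∧ y = 0) := by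
  decide +kernel

lemma col_le : ∀ x, col x = 0 ∨ col x = 1 := by decide +kernel

/-- Many vertices of each parity outside a small set. -/
lemma exists_clean {k C : ℕ} (D : Finset (Fin k)) (hD : D.card ≤ C) (hk : 2 * (C + 21) ≤ k)
    (r : ℕ) (hr : r < 2) : ∃ e : Fin 21 → Fin k, Function.Injective e ∧
      ∀ x, (e x).val % 2 = r ∧ e x ∉ D := by
  classical
  -- embed `C + 21` positions of the right parity
  let g : Fin (C + 21) ↪ Fin k := ⟨fun j => ⟨2 * j.val + r, by have := j.2; omega⟩, by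
    intro i j hij
    have : 2 * i.val + r = 2 * j.val + r := congrArg Fin.val hij
    exact Fin.ext (by omega)⟩
  have h1 : 21 ≤ ((Finset.univ.map g) \ D).card := by
    have h2 : ((Finset.univ.map g)).card = C + 21 := by simp
    have h3 := Finset.le_card_sdiff D (Finset.univ.map g)
    omega
  obtain ⟨e⟩ : Nonempty (Fin 21 ↪ ((Finset.univ.map g) \ D : Finset (Fin k))) := by
    apply Function.Embedding.nonempty_of_card_le
    rw [Fintype.card_fin, Fintype.card_coe]
    exact h1
  refine ⟨fun x => (e x).1, fun x y hxy => e.injective (Subtype.ext hxy), fun x => ?_⟩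
  have h2 := (e x).2
  rw [Finset.mem_sdiff, Finset.mem_map] at h2
  obtain ⟨⟨j, -, hj⟩, h3⟩ := h2
  refine ⟨?_, h3⟩
  change (e x).1.val % 2 = r
  rw [← hj]
  change (2 * j.val + r) % 2 = r
  omega

lemma contains_of_extra {k C : ℕ} {H1 : SimpleGraph (Fin 2)} {H2 : SimpleGraph (Fin k)}
    (h01 : H1.Adj 0 1)
    (hC : (symmDiff H2.edgeSet (SimpleGraph.turanGraph k 2).edgeSet).ncard ≤ C)
    (hk : 2 * (2 * C + 21) ≤ k) {u v : Fin k} (huv : H2.Adj u v)
    (hpar : u.val % 2 = v.val % 2) : H.IsContained (Jn H1 H2) := by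
  classical
  set Δ : Finset (Sym2 (Fin k)) :=
    (Set.toFinite (symmDiff H2.edgeSet (SimpleGraph.turanGraph k 2).edgeSet)).toFinset with hΔ
  have hΔc : Δ.card ≤ C := by
    rw [hΔ, ← Set.ncard_eq_toFinset_card]; exact hC
  have hΔm : ∀ e, e ∈ Δ ↔ e ∈ symmDiff H2.edgeSet (SimpleGraph.turanGraph k 2).edgeSet := by
    intro e; rw [hΔ, Set.Finite.mem_toFinset]
  set D : Finset (Fin k) := Δ.biUnion (fun e => Finset.univ.filter (fun x => x ∈ e)) with hD
  have hDc : D.card ≤ 2 * C := by
    have h1 : D.card ≤ Δ.card * 2 := by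
      apply Finset.card_biUnion_le_card_mul
      intro e _
      induction e with
      | h a b =>
        have : Finset.univ.filter (fun x => x ∈ s(a, b)) ⊆ {a, b} := by
          intro x hx
          rw [Finset.mem_filter, Sym2.mem_iff] at hx
          simpa using hx.2
        exact (Finset.card_le_card this).trans Finset.card_le_two
    omega
  have hDm : ∀ x y, s(x, y) ∈ Δ → x ∈ D := by
    intro x y h
    rw [hD, Finset.mem_biUnion]
    exact ⟨s(x, y), h, by rw [Finset.mem_filter]; exact ⟨Finset.mem_univ _, Sym2.mem_mk_left x y⟩⟩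
  -- clean pairs of opposite parity are adjacent
  have hclean : ∀ x y : Fin k, x.val % 2 ≠ y.val % 2 → x ∉ D → H2.Adj x y := by
    intro x y hxy hx
    by_contra hcon
    apply hx
    apply hDm x y
    rw [hΔm, Set.mem_symmDiff]
    right
    exact ⟨hxy, hcon⟩
  have hdirty : s(u, v) ∈ Δ := by
    rw [hΔm, Set.mem_symmDiff]
    left
    refine ⟨huv, fun h => ?_⟩
    exact h hpar
  have huD : u ∈ D := hDm u v hdirty
  have hvD : v ∈ D := hDm v u (by rw [Sym2.eq_swap]; exact hdirty)
  set κ := u.val % 2 with hκ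
  have hκ2 : κ < 2 := Nat.mod_lt _ (by norm_num)
  obtain ⟨e0, he0, he0'⟩ := exists_clean D hDc hk κ hκ2
  obtain ⟨e1, he1, he1'⟩ := exists_clean D hDc hk ((κ + 1) % 2) (Nat.mod_lt _ (by norm_num))
  let P : Fin 21 → Fin k := fun x =>
    if x = 19 then u else if x = 20 then v else if col x = 0 then e0 x else e1 x
  have hP19 : P 19 = u := by simp [P]
  have hP20 : P 20 = v := by simp [P]
  have hPpar : ∀ x, (P x).val % 2 = (κ + col x) % 2 := by
    intro x
    by_cases h1 : x = 19
    · subst h1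
      rw [hP19]
      have : col 19 = 0 := by decide +kernel
      rw [this, ← hκ]; omega
    by_cases h2 : x = 20
    · subst h2
      rw [hP20]
      have : col 20 = 0 := by decide +kernel
      rw [this, ← hpar]; omega
    rcases col_le x with h3 | h3
    · have : P x = e0 x := by simp [P, h1, h2, h3]
      rw [this, (he0' x).1, h3]; omega
    · have : P x = e1 x := by simp [P, h1, h2, h3]
      rw [this, (he1' x).1, h3]
  have hPclean : ∀ x, x ≠ 19 → x ≠ 20 → P x ∉ D := by
    intro x h1 h2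
    rcases col_le x with h3 | h3
    · have : P x = e0 x := by simp [P, h1, h2, h3]
      rw [this]; exact (he0' x).2
    · have : P x = e1 x := by simp [P, h1, h2, h3]
      rw [this]; exact (he1' x).2
  have hPinj : ∀ x y, P x = P y → x = y := by
    intro x y hxy
    by_cases h1 : x = 19
    · subst h1
      by_cases h2 : y = 19
      · exact h2.symm
      by_cases h3 : y = 20
      · subst h3
        rw [hP19, hP20] at hxy
        exact absurd hxy huv.ne
      · exact absurd (hxy ▸ hP19 ▸ huD) (hPclean y h2 h3)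
    by_cases h1' : x = 20
    · subst h1'
      by_cases h2 : y = 20
      · exact h2.symm
      by_cases h3 : y = 19
      · subst h3
        rw [hP19, hP20] at hxy
        exact absurd hxy.symm huv.ne
      · exact absurd (hxy ▸ hP20 ▸ hvD) (hPclean y h3 h2)
    have hxc := hPclean x h1 h1'
    by_cases h2 : y = 19
    · subst h2; rw [hP19] at hxy; rw [hxy] at hxc; exact absurd huD hxc
    by_cases h2' : y = 20
    · subst h2'; rw [hP20] at hxy; rw [hxy] at hxc; exact absurd hvD hxc
    have hpp := hPpar x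
    rw [hxy, hPpar y] at hpp
    rcases col_le x with h3 | h3 <;> rcases col_le y with h4 | h4
    · have e1 : P x = e0 x := by simp [P, h1, h1', h3]
      have e2 : P y = e0 y := by simp [P, h2, h2', h4]
      exact he0 (by rw [← e1, ← e2, hxy])
    · rw [h3, h4] at hpp; omega
    · rw [h3, h4] at hpp; omega
    · have e3 : P x = e1 x := by simp [P, h1, h1', h3]
      have e4 : P y = e1 y := by simp [P, h2, h2', h4]
      exact he1 (by rw [← e3, ← e4, hxy])
  let f : Fin 21 → Fin 2 ⊕ Fin k := fun x =>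
    if x = 0 then .inl 0 else if x = 1 then .inl 1 else .inr (P x)
  have hf0 : f 0 = .inl 0 := by simp [f]
  have hf1 : f 1 = .inl 1 := by simp [f]
  have hf2 : ∀ x : Fin 21, ¬ x.val ≤ 1 → f x = .inr (P x) := by
    intro x hx
    have h1 : x ≠ 0 := fun h => hx (by rw [h]; simp)
    have h2 : x ≠ 1 := fun h => hx (by rw [h]; simp)
    simp [f, h1, h2]
  have hlow : ∀ x : Fin 21, x.val ≤ 1 → ∃ a, f x = .inl a := by
    intro x hx
    have : x = 0 ∨ x = 1 := by
      rcases Nat.le_one_iff_eq_zero_or_eq_one.mp hx with h | h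
      · left; exact Fin.ext h
      · right; exact Fin.ext h
    rcases this with rfl | rfl
    · exact ⟨0, hf0⟩
    · exact ⟨1, hf1⟩
  refine ⟨⟨⟨f, ?_⟩, ?_⟩⟩
  · intro x y hxy
    by_cases hx : x.val ≤ 1
    · by_cases hy : y.val ≤ 1
      · rcases edge_low x y hxy hx hy with ⟨rfl, rfl⟩ | ⟨rfl, rfl⟩
        · rw [hf0, hf1, Jn_inl_inl]; exact h01
        · rw [hf0, hf1, Jn_inl_inl]; exact h01.symm
      · obtain ⟨a, ha⟩ := hlow x hx
        rw [ha, hf2 y hy]; exact Jn_inl_inr
    · by_cases hy : y.val ≤ 1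
      · obtain ⟨a, ha⟩ := hlow y hy
        rw [ha, hf2 x hx]; exact Jn_inr_inl
      · rw [hf2 x hx, hf2 y hy, Jn_inr_inr]
        rcases edge_cases x y hxy with (h | h) | ⟨rfl, rfl⟩ | ⟨rfl, rfl⟩ | ⟨hc, h⟩
        · exact absurd h hx
        · exact absurd h hy
        · rw [hP19, hP20]; exact huv
        · rw [hP19, hP20]; exact huv.symm
        · have hpp : (P x).val % 2 ≠ (P y).val % 2 := by
            rw [hPpar, hPpar]
            rcases col_le x with h3 | h3 <;> rcases col_le y with h4 | h4 <;>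
              rw [h3, h4] at hc ⊢ <;> omega
          rcases h with h | h
          · exact hclean _ _ hpp (hPclean x h.1 h.2)
          · exact (hclean _ _ hpp.symm (hPclean y h.1 h.2)).symm
  · intro x y hxy
    have hxy' : f x = f y := hxy
    by_cases hx : x.val ≤ 1
    · by_cases hy : y.val ≤ 1
      · have hx' : x = 0 ∨ x = 1 := by
          rcases Nat.le_one_iff_eq_zero_or_eq_one.mp hx with h | h
          · left; exact Fin.ext h
          · right; exact Fin.ext h
        have hy' : y = 0 ∨ y = 1 := by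
          rcases Nat.le_one_iff_eq_zero_or_eq_one.mp hy with h | h
          · left; exact Fin.ext h
          · right; exact Fin.ext h
        rcases hx' with rfl | rfl <;> rcases hy' with rfl | rfl
        · rfl
        · rw [hf0, hf1] at hxy'; simp at hxy'
        · rw [hf0, hf1] at hxy'; simp at hxy'
        · rfl
      · obtain ⟨a, ha⟩ := hlow x hx
        rw [ha, hf2 y hy] at hxy'
        simp at hxy'
    · by_cases hy : y.val ≤ 1
      · obtain ⟨a, ha⟩ := hlow y hy
        rw [ha, hf2 x hx] at hxy'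
        simp at hxy'
      · rw [hf2 x hx, hf2 y hy] at hxy'
        exact hPinj x y (Sum.inr.inj hxy')

/-! ### Chromatic number -/

/-- A proper colouring with three colours. -/
def col3 (x : Fin 21) : Fin 3 :=
  if [0, 2, 3].contains x.val then 2 else if side x = true then 1 else 0

lemma chromatic : H.chromaticNumber = ((2 + 1 : ℕ) : ℕ∞) := by
  apply le_antisymm
  · apply SimpleGraph.Colorable.chromaticNumber_le
    have h : ∀ x y, H.Adj x y → col3 x ≠ col3 y := by decide +kernel
    exact ⟨SimpleGraph.Coloring.mk col3 (fun {x y} hxy => h x y hxy)⟩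
  · have h1 : H.IsClique (({2, 19, 20} : Finset (Fin 21)) : Set (Fin 21)) := by
      have h : ∀ x ∈ ({2, 19, 20} : Finset (Fin 21)), ∀ y ∈ ({2, 19, 20} : Finset (Fin 21)),
        x ≠ y → H.Adj x y := by decide +kernel
      intro x hx y hy hxy
      exact h x hx y hy hxy
    have h2 := h1.card_le_chromaticNumber
    have h3 : ({2, 19, 20} : Finset (Fin 21)).card = 2 + 1 := by decide
    rw [h3] at h2
    exact h2

/-! ### Counting edges -/

lemma ncard_iso {α β : Type} {G : SimpleGraph α} {K : SimpleGraph β} (e : G ≃g K) :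
    G.edgeSet.ncard = K.edgeSet.ncard := by
  rw [← Nat.card_coe_set_eq, ← Nat.card_coe_set_eq]
  exact Nat.card_congr e.mapEdgeSet

lemma count {k : ℕ} (hk : 5 ≤ k) {H1 : SimpleGraph (Fin 2)} {H2 : SimpleGraph (Fin k)}
    (hpar : ∀ u v : Fin k, H2.Adj u v → u.val % 2 ≠ v.val % 2) :
    (Jn H1 H2).edgeSet.ncard < (Jn (⊥ : SimpleGraph (Fin 2)) (K2 k)).edgeSet.ncard := by
  classical
  set A := (Jn H1 H2).edgeSet with hA
  set B := (Jn (⊥ : SimpleGraph (Fin 2)) (K2 k)).edgeSet with hB
  let z0 : Fin k := ⟨0, by omega⟩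
  let z2 : Fin k := ⟨2, by omega⟩
  let z4 : Fin k := ⟨4, by omega⟩
  let e1 : Sym2 (Fin 2 ⊕ Fin k) := s(.inr z0, .inr z2)
  let e2 : Sym2 (Fin 2 ⊕ Fin k) := s(.inr z0, .inr z4)
  have he1 : e1 ∈ B := by
    change (Jn (⊥ : SimpleGraph (Fin 2)) (K2 k)).Adj (.inr z0) (.inr z2)
    rw [Jn_inr_inr]
    exact Or.inr (Or.inl ⟨rfl, Or.inl rfl⟩)
  have he2 : e2 ∈ B := by
    change (Jn (⊥ : SimpleGraph (Fin 2)) (K2 k)).Adj (.inr z0) (.inr z4)
    rw [Jn_inr_inr]
    exact Or.inr (Or.inl ⟨rfl, Or.inr rfl⟩)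
  have hne : e1 ≠ e2 := by
    intro h
    have h1 : e1 = e2 := h
    simp only [e1, e2, Sym2.eq_iff, Sum.inr.injEq] at h1
    rcases h1 with ⟨-, h1⟩ | ⟨h1, -⟩
    · have := congrArg Fin.val h1
      simp [z2, z4] at this
    · have := congrArg Fin.val h1
      simp [z0, z4] at this
  have hsub : A ⊆ insert s(.inl 0, .inl 1) (B \ {e1, e2}) := by
    intro e he
    induction e with
    | h x y =>
      have hxy : (Jn H1 H2).Adj x y := he
      rcases x with a | a <;> rcases y with b | b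
      · left
        rw [Jn_inl_inl] at hxy
        have hab := hxy.ne
        fin_cases a <;> fin_cases b
        · exact absurd rfl hab
        · rfl
        · exact Sym2.eq_swap
        · exact absurd rfl hab
      · right
        refine ⟨?_, ?_⟩
        · exact (Jn_inl_inr : (Jn (⊥ : SimpleGraph (Fin 2)) (K2 k)).Adj (.inl a) (.inr b))
        · simp [e1, e2]
      · right
        refine ⟨?_, ?_⟩
        · exact (Jn_inr_inl : (Jn (⊥ : SimpleGraph (Fin 2)) (K2 k)).Adj (.inr a) (.inl b))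
        · simp [e1, e2]
      · right
        rw [Jn_inr_inr] at hxy
        have hp := hpar a b hxy
        refine ⟨?_, ?_⟩
        · change (Jn (⊥ : SimpleGraph (Fin 2)) (K2 k)).Adj (.inr a) (.inr b)
          rw [Jn_inr_inr]
          exact Or.inl hp
        · intro h
          simp only [Set.mem_insert_iff, Set.mem_singleton_iff, e1, e2, Sym2.eq_iff,
            Sum.inr.injEq] at h
          rcases h with (⟨rfl, rfl⟩ | ⟨rfl, rfl⟩) | (⟨rfl, rfl⟩ | ⟨rfl, rfl⟩) <;>
            simp [z0, z2, z4] at hp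
  have h1 := Set.ncard_le_ncard hsub (Set.toFinite _)
  have h2 := Set.ncard_insert_le s((.inl 0 : Fin 2 ⊕ Fin k), .inl 1) (B \ {e1, e2})
  have h3 : ({e1, e2} : Set (Sym2 (Fin 2 ⊕ Fin k))).ncard = 2 := Set.ncard_pair hne
  have h4 : ({e1, e2} : Set (Sym2 (Fin 2 ⊕ Fin k))) ⊆ B := by
    intro e he
    rcases he with rfl | rfl
    · exact he1
    · exact he2
  have h5 := Set.ncard_sdiff_add_ncard_of_subset h4 (Set.toFinite _)
  omega

/-- No join of the required form is extremal. -/
lemma no_join {n C : ℕ} (hn : 4 * C + 50 ≤ n) {H1 : SimpleGraph (Fin 2)}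
    {H2 : SimpleGraph (Fin (n - 3 + 1))}
    (h01 : H1.Adj 0 1)
    (hC : (symmDiff H2.edgeSet (SimpleGraph.turanGraph (n - 3 + 1) 2).edgeSet).ncard ≤ C)
    (hfree : ¬ H.IsContained (Jn H1 H2))
    (hmax : ∀ G : SimpleGraph (Fin n), ¬ H.IsContained G →
      G.edgeSet.ncard ≤ (Jn H1 H2).edgeSet.ncard) : False := by
  have hpar : ∀ u v : Fin (n - 3 + 1), H2.Adj u v → u.val % 2 ≠ v.val % 2 := by
    intro u v huv hp
    exact hfree (contains_of_extra h01 hC (by omega) huv hp)
  have hcount := count (H1 := H1) (by omega) hpar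
  have hcard : Fintype.card (Fin n) = Fintype.card (Fin 2 ⊕ Fin (n - 3 + 1)) := by
    simp only [Fintype.card_fin, Fintype.card_sum]; omega
  let φ : Fin n ≃ Fin 2 ⊕ Fin (n - 3 + 1) := Fintype.equivOfCardEq hcard
  let e := SimpleGraph.Iso.comap φ (Jn (⊥ : SimpleGraph (Fin 2)) (K2 (n - 3 + 1)))
  have h1 := hmax ((Jn (⊥ : SimpleGraph (Fin 2)) (K2 (n - 3 + 1))).comap φ) (by
    intro h
    exact competitor_free (h.trans ⟨e.toCopy⟩))
  rw [ncard_iso e] at h1
  omega

end Pool.Agent.Helper29.MG
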