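import Mathlib

set_option autoImplicit false

namespace Pool.Agent.Helper29.MST

open Matrix Complex

/-- An oriented graph on `V`: at most one of the two arcs between two vertices, no loops
(`asymm` with `a = b` excludes loops). -/
structure OrientedGraph (V : Type) where
  Arc : V → V → Prop
  asymm : ∀ a b, Arc a b → ¬ Arc b a

open Classical in
/-- The skew adjacency matrix, with complex entries `1`, `-1`, `0`. -/
noncomputable def OrientedGraph.skew {V : Type} (X : OrientedGraph V) : Matrix V V ℂ :=
  Matrix.of fun a b => if X.Arc a b then 1 else if X.Arc b a then -1 else 0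

/-- The transition matrix `U(t) = exp(i t M)` with `M = i S`. -/
noncomputable def OrientedGraph.U {V : Type} [Fintype V] [DecidableEq V] (X : OrientedGraph V)
    (t : ℝ) : Matrix V V ℂ :=
  NormedSpace.exp ((I * (t : ℂ)) • (I • X.skew))

/-- Perfect state transfer from `a` to `b` at time `t`. -/
def OrientedGraph.PST {V : Type} [Fintype V] [DecidableEq V] (X : OrientedGraph V)
    (a b : V) (t : ℝ) : Prop :=
  ∃ α : ℂ, X.U t *ᵥ Pi.single a 1 = α • Pi.single b 1

/-- Multiple state transfer on the subset `S`. -/
def OrientedGraph.MultipleStateTransfer {V : Type} [Fintype V] [DecidableEq V]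
    (X : OrientedGraph V) (S : Finset V) : Prop :=
  2 < S.card ∧ ∀ a ∈ S, ∀ b ∈ S, a ≠ b → ∃ t : ℝ, X.PST a b t

end Pool.Agent.Helper29.MST
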