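import Pool.Agent.Helper29.MSTDefs

set_option autoImplicit false

namespace Pool.Agent.Helper29.MST

open Matrix Complex

/-! ### Exponential of a matrix on an eigenvector -/

section ExpEigen

variable {n : Type} [Fintype n] [DecidableEq n]

lemma pow_mulVec_of_eigen {A : Matrix n n ℂ} {v : n → ℂ} {μ : ℂ} (h : A *ᵥ v = μ • v) (k : ℕ) :
    (A ^ k) *ᵥ v = μ ^ k • v := by
  induction k with
  | zero => simp
  | succ k ih => rw [pow_succ', ← Matrix.mulVec_mulVec, ih, Matrix.mulVec_smul, h, smul_smul, pow_succ]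

open scoped Matrix.Norms.Operator in
lemma exp_mulVec_of_eigen {A : Matrix n n ℂ} {v : n → ℂ} {μ : ℂ} (h : A *ᵥ v = μ • v) :
    NormedSpace.exp A *ᵥ v = Complex.exp μ • v := by
  have h1 : HasSum (fun k : ℕ => ((k.factorial : ℂ)⁻¹) • A ^ k) (NormedSpace.exp A) :=
    NormedSpace.exp_series_hasSum_exp' (𝕂 := ℂ) A
  have h2 : HasSum (fun k : ℕ => (((k.factorial : ℂ)⁻¹) • A ^ k) *ᵥ v) (NormedSpace.exp A *ᵥ v) := by
    let L : Matrix n n ℂ →+ (n → ℂ) :=
      { toFun := fun B => B *ᵥ v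
        map_zero' := by simp
        map_add' := fun B C => by simp [Matrix.add_mulVec] }
    have hL : Continuous L := by
      change Continuous fun B : Matrix n n ℂ => B *ᵥ v
      fun_prop
    exact h1.map L hL
  have h3 : HasSum (fun k : ℕ => ((k.factorial : ℂ)⁻¹) • μ ^ k) (NormedSpace.exp μ) :=
    NormedSpace.exp_series_hasSum_exp' (𝕂 := ℂ) μ
  have h4 : HasSum (fun k : ℕ => (((k.factorial : ℂ)⁻¹) • μ ^ k) • v) (NormedSpace.exp μ • v) :=
    h3.smul_const v
  have h5 : ∀ k : ℕ, (((k.factorial : ℂ)⁻¹) • A ^ k) *ᵥ v = (((k.factorial : ℂ)⁻¹) • μ ^ k) • v := by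
    intro k
    rw [Matrix.smul_mulVec, pow_mulVec_of_eigen h, smul_smul]
    rfl
  simp_rw [h5] at h2
  rw [Complex.exp_eq_exp_ℂ]
  exact h2.unique h4

end ExpEigen

/-! ### Cartesian products -/

/-- The Cartesian product of two oriented graphs. -/
def OrientedGraph.box {V W : Type} (X : OrientedGraph V) (Y : OrientedGraph W) :
    OrientedGraph (V × W) where
  Arc p q := (X.Arc p.1 q.1 ∧ p.2 = q.2) ∨ (p.1 = q.1 ∧ Y.Arc p.2 q.2)
  asymm := by
    rintro ⟨a, b⟩ ⟨c, d⟩ h h'
    simp only at h h'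
    rcases h with ⟨h1, h2⟩ | ⟨h1, h2⟩ <;> rcases h' with ⟨h3, h4⟩ | ⟨h3, h4⟩
    · exact X.asymm _ _ h1 h3
    · subst h3; exact X.asymm _ _ h1 h1
    · subst h1; exact X.asymm _ _ h3 h3
    · exact Y.asymm _ _ h2 h4

lemma skew_box {V W : Type} [DecidableEq V] [DecidableEq W] (X : OrientedGraph V)
    (Y : OrientedGraph W) (p q : V × W) :
    (X.box Y).skew p q = (if p.2 = q.2 then X.skew p.1 q.1 else 0) +
      (if p.1 = q.1 then Y.skew p.2 q.2 else 0) := by
  classical
  obtain ⟨a, b⟩ := p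
  obtain ⟨c, d⟩ := q
  simp only [OrientedGraph.skew, Matrix.of_apply, OrientedGraph.box]
  by_cases h1 : a = c
  · by_cases h2 : b = d
    · subst h1; subst h2
      have h3 : ¬ X.Arc a a := fun h => X.asymm _ _ h h
      have h4 : ¬ Y.Arc b b := fun h => Y.asymm _ _ h h
      simp [h3, h4]
    · subst h1
      have h2' : ¬ d = b := fun h => h2 h.symm
      simp [h2, h2']
  · have h1' : ¬ c = a := fun h => h1 h.symm
    by_cases h2 : b = d
    · subst h2
      simp [h1, h1']
    · have h2' : ¬ d = b := fun h => h2 h.symm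
      simp [h1, h1', h2, h2']

/-- Tensor product of two vectors. -/
def ten {V W : Type} (f : V → ℂ) (g : W → ℂ) : V × W → ℂ := fun p => f p.1 * g p.2

lemma skew_box_mulVec_ten {V W : Type} [Fintype V] [Fintype W] [DecidableEq V] [DecidableEq W]
    (X : OrientedGraph V) (Y : OrientedGraph W) (f : V → ℂ) (g : W → ℂ) :
    (X.box Y).skew *ᵥ ten f g = ten (X.skew *ᵥ f) g + ten f (Y.skew *ᵥ g) := by
  ext ⟨a, b⟩
  simp only [Matrix.mulVec, dotProduct, Pi.add_apply, ten, skew_box]
  rw [Fintype.sum_prod_type]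
  have h1 : ∀ x : V, ∀ y : W, ((if b = y then X.skew a x else 0) + (if a = x then Y.skew b y else 0)) *
      (f x * g y) = (if b = y then X.skew a x * f x * g y else 0) +
        (if a = x then f x * (Y.skew b y * g y) else 0) := by
    intro x y
    split_ifs <;> ring
  simp only [h1, Finset.sum_add_distrib]
  congr 1
  · simp [Finset.sum_mul]
  · rw [Finset.sum_comm]
    simp [Finset.mul_sum]

lemma eigen_ten {V W : Type} [Fintype V] [Fintype W] [DecidableEq V] [DecidableEq W]
    {X : OrientedGraph V} {Y : OrientedGraph W} {f : V → ℂ} {g : W → ℂ} {θ φ : ℂ}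
    (hf : X.skew *ᵥ f = θ • f) (hg : Y.skew *ᵥ g = φ • g) (t : ℝ) :
    (X.box Y).U t *ᵥ ten f g = (Complex.exp (-(t * θ)) * Complex.exp (-(t * φ))) • ten f g := by
  rw [OrientedGraph.U, ← Complex.exp_add]
  have h : ((I * (t : ℂ)) • (I • (X.box Y).skew)) *ᵥ ten f g =
      (-(t * θ) + -(t * φ)) • ten f g := by
    rw [Matrix.smul_mulVec, Matrix.smul_mulVec, skew_box_mulVec_ten, hf, hg]
    ext p
    simp only [Pi.smul_apply, Pi.add_apply, ten, smul_eq_mul]
    linear_combination (t * (θ * f p.1 * g p.2 + f p.1 * (φ * g p.2))) * Complex.I_sq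
  exact exp_mulVec_of_eigen h

/-! ### The first factor: 99 vertices -/

/-- Vertices of the first factor: `inl j` are the three special vertices. -/
abbrev VX := Fin 3 ⊕ (Fin 3 × Fin 8 × Fin 4)

/-- The first factor. -/
def GX : OrientedGraph VX where
  Arc
    | .inl _, .inl _ => False
    | .inl j, .inr (k, _, _) => j = k + 1
    | .inr (k, _, _), .inl j => j = k
    | .inr (k, c, _), .inr (k', c', _) => k' = k + 1 ∧ c = c'
  asymm := by
    rintro (j | ⟨k, c, d⟩) (j' | ⟨k', c', d'⟩) h h'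
    · exact h
    · simp only at h h'
      rw [h] at h'
      revert h'
      fin_cases k' <;> decide
    · simp only at h h'
      rw [h'] at h
      revert h
      fin_cases k <;> decide
    · simp only at h h'
      obtain ⟨h1, -⟩ := h
      obtain ⟨h2, -⟩ := h'
      rw [h1] at h2
      revert h2
      fin_cases k <;> decide

/-- Functions on `VX` that depend only on the cell. -/
def cell (α β : Fin 3 → ℂ) : VX → ℂ
  | .inl j => α j
  | .inr (k, _, _) => β k

lemma skewX_cell (α β : Fin 3 → ℂ) :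
    GX.skew *ᵥ cell α β = cell (fun j => 32 * (β (j + 2) - β j))
      (fun k => α k - α (k + 1) + 4 * (β (k + 1) - β (k + 2))) := by
  classical
  ext v
  simp only [Matrix.mulVec, dotProduct]
  rw [Fintype.sum_sum_type]
  rcases v with j | ⟨k, c, d⟩
  · have h0 : ∀ j', GX.skew (.inl j) (.inl j') = 0 := by
      intro j'; simp [OrientedGraph.skew, GX]
    have h1 : ∀ x : Fin 3 × Fin 8 × Fin 4, GX.skew (.inl j) (.inr x) =
        if j = x.1 + 1 then 1 else if j = x.1 then -1 else 0 := by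
      rintro ⟨k, c, d⟩
      simp only [OrientedGraph.skew, GX, Matrix.of_apply]
      by_cases h1 : j = k + 1
      · simp [h1]
      · by_cases h2 : j = k <;> simp [h1, h2]
    simp only [h0, h1, zero_mul, Finset.sum_const_zero, zero_add, cell]
    rw [Fintype.sum_prod_type]
    rw [Fin.sum_univ_three]
    fin_cases j <;> simp <;> ring
  · have h1 : ∀ j, GX.skew (.inr (k, c, d)) (.inl j) =
        if j = k then 1 else if j = k + 1 then -1 else 0 := by
      intro j
      simp only [OrientedGraph.skew, GX, Matrix.of_apply]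
      by_cases h1 : j = k
      · simp [h1]
      · by_cases h2 : j = k + 1 <;> simp [h1, h2]
    have h2 : ∀ k' c' d', GX.skew (.inr (k, c, d)) (.inr (k', c', d')) =
        if c = c' then (if k' = k + 1 then 1 else if k = k' + 1 then -1 else 0) else 0 := by
      intro k' c' d'
      simp only [OrientedGraph.skew, GX, Matrix.of_apply]
      by_cases hc : c = c'
      · subst hc; simp
      · have hc' : ¬ c' = c := fun h => hc h.symm
        simp [hc, hc']
    simp only [h1, cell]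
    rw [Fintype.sum_prod_type]
    simp only [Fintype.sum_prod_type, h2]
    simp only [Finset.sum_const, Finset.card_univ, Fintype.card_fin, ite_mul, zero_mul,
      smul_ite, Fin.sum_univ_three]
    fin_cases k <;> simp <;> ring

/-! ### The second factor: `K_{2,54}` with all arcs leaving the two special vertices -/

/-- Vertices of the second factor. -/
abbrev VY := Fin 2 ⊕ Fin 54

/-- The second factor. -/
def GY : OrientedGraph VY where
  Arc
    | .inl _, .inr _ => True
    | _, _ => False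
  asymm := by
    rintro (j | x) (j' | x') h h' <;> simp at h h'

/-- Functions on `VY` that depend only on the cell. -/
def cellY (α : Fin 2 → ℂ) (β : ℂ) : VY → ℂ
  | .inl j => α j
  | .inr _ => β

lemma skewY_cell (α : Fin 2 → ℂ) (β : ℂ) :
    GY.skew *ᵥ cellY α β = cellY (fun _ => 54 * β) (-(α 0 + α 1)) := by
  ext v
  simp only [Matrix.mulVec, dotProduct]
  rw [Fintype.sum_sum_type]
  rcases v with j | x
  · simp [OrientedGraph.skew, GY, cellY]
  · simp [OrientedGraph.skew, GY, cellY]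

/-! ### Transfer in the product -/

/-- The transfer time. -/
noncomputable def t₀ : ℝ := Real.pi / (6 * Real.sqrt 3)

/-- The product graph. -/
def G : OrientedGraph (VX × VY) := GX.box GY

/-- The special vertices of the first factor. -/
def eX (j : Fin 3) : VX → ℂ := cell (Pi.single j 1) 0

lemma eX_eq (j : Fin 3) : eX j = Pi.single (Sum.inl j) 1 := by
  ext v
  rcases v with j' | ⟨k, c, d⟩
  · simp [eX, cell, Pi.single_apply]
  · simp [eX, cell]

/-- The special vertices of the second factor. -/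
def eY (l : Fin 2) : VY → ℂ := cellY (Pi.single l 1) 0

lemma eY_eq (l : Fin 2) : eY l = Pi.single (Sum.inl l) 1 := by
  ext v
  rcases v with j' | x
  · simp [eY, cellY, Pi.single_apply]
  · simp [eY, cellY]

lemma ten_e (j : Fin 3) (l : Fin 2) :
    ten (eX j) (eY l) = Pi.single ((Sum.inl j, Sum.inl l) : VX × VY) 1 := by
  rw [eX_eq, eY_eq]
  ext ⟨a, b⟩
  simp only [ten, Pi.single_apply, Prod.mk.injEq]
  split_ifs <;> simp_all

/-- Character vectors on the special vertices of the first factor. -/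
def chi (w : ℂ) : VX → ℂ := cell (fun j => w ^ (j : ℕ)) 0

lemma three_pow {w : ℂ} (hw : w ^ 2 + w + 1 = 0) : w ^ 3 = 1 := by
  linear_combination (w - 1) * hw

lemma eigenP {w : ℂ} (hw : w ^ 2 + w + 1 = 0) (c : ℂ) (θ : ℂ) (h1 : 32 * c * (w ^ 2 - 1) = θ)
    (h2 : (1 - w) + 4 * c * (w - w ^ 2) = θ * c) :
    GX.skew *ᵥ cell (fun j => w ^ (j : ℕ)) (fun k => c * w ^ (k : ℕ)) =
      θ • cell (fun j => w ^ (j : ℕ)) (fun k => c * w ^ (k : ℕ)) := by
  have h3 := three_pow hw
  rw [skewX_cell]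
  ext v
  rcases v with j | ⟨k, x, y⟩
  · simp only [cell, Pi.smul_apply, smul_eq_mul]
    fin_cases j
    · simp
      linear_combination h1
    · simp
      linear_combination w * h1 - 32 * c * h3
    · simp
      linear_combination w ^ 2 * h1 - 32 * c * w * h3
  · simp only [cell, Pi.smul_apply, smul_eq_mul]
    fin_cases k
    · simp
      linear_combination h2
    · simp
      linear_combination w * h2 + 4 * c * h3
    · simp
      linear_combination w ^ 2 * h2 + h3 - 4 * c * h3 + 4 * c * w * h3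

lemma U_chi {w : ℂ} (hw : w ^ 2 + w + 1 = 0) (t : ℝ)
    (ht1 : Complex.exp (-(t * (8 * (w - w ^ 2)))) = w)
    (ht2 : Complex.exp (-(t * (-4 * (w - w ^ 2)))) = w)
    {g : VY → ℂ} {φ : ℂ} (hg : GY.skew *ᵥ g = φ • g) :
    G.U t *ᵥ ten (chi w) g = (w * Complex.exp (-(t * φ))) • ten (chi w) g := by
  have h3 := three_pow hw
  have hP := eigenP hw (w ^ 2 / 4) (8 * (w - w ^ 2))
    (by linear_combination 8 * w * h3) (by linear_combination (w - 1) * h3)
  have hQ := eigenP hw (-(w ^ 2 / 8)) (-4 * (w - w ^ 2))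
    (by linear_combination (-4 * w) * h3) (by linear_combination (w - 1) * h3)
  have e1 := eigen_ten hP hg t
  have e2 := eigen_ten hQ hg t
  rw [ht1] at e1
  rw [ht2] at e2
  have hdec : ten (chi w) g =
      (1 / 3 : ℂ) • ten (cell (fun j => w ^ (j : ℕ)) (fun k => w ^ 2 / 4 * w ^ (k : ℕ))) g +
      (2 / 3 : ℂ) • ten (cell (fun j => w ^ (j : ℕ)) (fun k => -(w ^ 2 / 8) * w ^ (k : ℕ))) g := by
    ext ⟨v, y⟩
    rcases v with j | ⟨k, x, z⟩
    · simp only [ten, chi, cell, Pi.add_apply, Pi.smul_apply, smul_eq_mul]; ring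
    · simp only [ten, chi, cell, Pi.add_apply, Pi.smul_apply, smul_eq_mul, Pi.zero_apply]; ring
  rw [hdec, Matrix.mulVec_add, Matrix.mulVec_smul, Matrix.mulVec_smul]
  rw [show G.U t = (GX.box GY).U t from rfl, e1, e2]
  module

lemma exp_two_pi_div_three_root {z : ℂ} (hz : z ^ 3 = 1) (hz1 : z ≠ 1) : z ^ 2 + z + 1 = 0 := by
  have h : (z - 1) * (z ^ 2 + z + 1) = 0 := by linear_combination hz
  rcases mul_eq_zero.mp h with h | h
  · exact absurd (sub_eq_zero.mp h) hz1
  · exact h

/-- A primitive cube root of unity. -/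
noncomputable def om : ℂ := -1 / 2 + (Real.sqrt 3 / 2 : ℝ) * I

lemma sq3 : ((Real.sqrt 3 : ℝ) : ℂ) ^ 2 = 3 := by
  rw [← Complex.ofReal_pow, Real.sq_sqrt (by norm_num)]; norm_num

lemma om_root : om ^ 2 + om + 1 = 0 := by
  unfold om
  push_cast
  linear_combination (1 / 4 : ℂ) * (Complex.I ^ 2) * sq3 + (3 / 4 : ℂ) * Complex.I_sq

lemma exp_om : Complex.exp ((2 * Real.pi / 3 : ℝ) * I) = om := by
  rw [Complex.exp_mul_I, ← Complex.ofReal_cos, ← Complex.ofReal_sin]
  have h : (2 * Real.pi / 3 : ℝ) = Real.pi - Real.pi / 3 := by ring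
  rw [h, Real.cos_pi_sub, Real.sin_pi_sub, Real.cos_pi_div_three, Real.sin_pi_div_three]
  unfold om
  push_cast; ring

lemma exp_om2 : Complex.exp ((-(2 * Real.pi / 3) : ℝ) * I) = om ^ 2 := by
  have h1 : Complex.exp ((-(2 * Real.pi / 3) : ℝ) * I) * Complex.exp ((2 * Real.pi / 3 : ℝ) * I) = 1 := by
    rw [← Complex.exp_add]
    have : ((-(2 * Real.pi / 3) : ℝ) : ℂ) * I + ((2 * Real.pi / 3 : ℝ) : ℂ) * I = 0 := by
      push_cast; ring
    rw [this, Complex.exp_zero]
  rw [exp_om] at h1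
  have h3 := three_pow om_root
  have hne : om ≠ 0 := by
    intro h
    rw [h] at h3; norm_num at h3
  apply mul_right_cancel₀ hne
  rw [h1, ← pow_succ, h3]

lemma om_sub : om - om ^ 2 = (Real.sqrt 3 : ℝ) * I := by
  have h := om_root
  unfold om at h ⊢
  push_cast at h ⊢
  linear_combination -h

lemma sqrt3_ne : ((Real.sqrt 3 : ℝ) : ℂ) ≠ 0 := by
  rw [Complex.ofReal_ne_zero]
  positivity

lemma exp_shift (x : ℝ) : Complex.exp (((x - 2 * Real.pi : ℝ) : ℂ) * I) = Complex.exp ((x : ℂ) * I) := by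
  have : ((x - 2 * Real.pi : ℝ) : ℂ) * I = (x : ℂ) * I - 2 * Real.pi * I := by push_cast; ring
  rw [this, Complex.exp_sub, Complex.exp_two_pi_mul_I, div_one]

lemma U_chi_om {g : VY → ℂ} {φ : ℂ} (hg : GY.skew *ᵥ g = φ • g) :
    G.U t₀ *ᵥ ten (chi om) g = (om * Complex.exp (-(t₀ * φ))) • ten (chi om) g := by
  have hs := sqrt3_ne
  refine U_chi om_root t₀ ?_ ?_ hg
  · have h : -((t₀ : ℂ) * (8 * (om - om ^ 2))) = ((2 * Real.pi / 3 - 2 * Real.pi : ℝ) : ℂ) * I := by
      rw [om_sub]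
      unfold t₀
      push_cast
      field_simp
      ring
    rw [h, exp_shift, exp_om]
  · have h : -((t₀ : ℂ) * (-4 * (om - om ^ 2))) = ((2 * Real.pi / 3 : ℝ) : ℂ) * I := by
      rw [om_sub]
      unfold t₀
      push_cast
      field_simp
      ring
    rw [h, exp_om]

lemma om_sq_root : (om ^ 2) ^ 2 + om ^ 2 + 1 = 0 := by
  have h3 := three_pow om_root
  linear_combination om_root + om * h3

lemma U_chi_om2 {g : VY → ℂ} {φ : ℂ} (hg : GY.skew *ᵥ g = φ • g) :
    G.U t₀ *ᵥ ten (chi (om ^ 2)) g =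
      (om ^ 2 * Complex.exp (-(t₀ * φ))) • ten (chi (om ^ 2)) g := by
  have hs := sqrt3_ne
  have hsub : om ^ 2 - (om ^ 2) ^ 2 = -((Real.sqrt 3 : ℝ) * I) := by
    have h3 := three_pow om_root
    linear_combination -om_sub - om * h3
  refine U_chi om_sq_root t₀ ?_ ?_ hg
  · have h : -((t₀ : ℂ) * (8 * (om ^ 2 - (om ^ 2) ^ 2))) =
        ((4 * Real.pi / 3 : ℝ) : ℂ) * I := by
      rw [hsub]
      unfold t₀
      push_cast
      field_simp
      ring
    rw [h, ← exp_shift, ← exp_om2]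
    congr 2
    push_cast; ring
  · have h : -((t₀ : ℂ) * (-4 * (om ^ 2 - (om ^ 2) ^ 2))) =
        ((-(2 * Real.pi / 3) : ℝ) : ℂ) * I := by
      rw [hsub]
      unfold t₀
      push_cast
      field_simp
      ring
    rw [h, exp_om2]

lemma U_chi_one {g : VY → ℂ} {φ : ℂ} (hg : GY.skew *ᵥ g = φ • g) :
    G.U t₀ *ᵥ ten (chi 1) g = Complex.exp (-(t₀ * φ)) • ten (chi 1) g := by
  have h : GX.skew *ᵥ chi 1 = (0 : ℂ) • chi 1 := by
    unfold chi
    rw [skewX_cell]
    ext v
    rcases v with j | ⟨k, x, y⟩ <;> simp [cell]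
  have := eigen_ten h hg t₀
  rw [mul_zero, neg_zero, Complex.exp_zero, one_mul] at this
  exact this

lemma U_eX {g : VY → ℂ} {φ : ℂ} (hg : GY.skew *ᵥ g = φ • g) (j : Fin 3) :
    G.U t₀ *ᵥ ten (eX j) g = Complex.exp (-(t₀ * φ)) • ten (eX (j + 2)) g := by
  have h3 := three_pow om_root
  have h0 := om_root
  have h4 : om ^ 4 = om := by linear_combination om * h3
  have hdec : ∀ i : Fin 3, ten (eX i) g = (1 / 3 : ℂ) • ten (chi 1) g +
      (om ^ (2 * (i : ℕ)) / 3) • ten (chi om) g + (om ^ (i : ℕ) / 3) • ten (chi (om ^ 2)) g := by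
    intro i
    ext ⟨v, y⟩
    rcases v with j' | ⟨k, x, z⟩
    · simp only [ten, eX, chi, cell, Pi.add_apply, Pi.smul_apply, smul_eq_mul]
      fin_cases i <;> fin_cases j' <;> simp
      · ring
      · linear_combination (-(g y) / 3) * h0
      · linear_combination (-(g y) / 3) * h0 - (g y / 3) * om * h3
      · linear_combination (-(g y) / 3) * h0
      · linear_combination (-(2 * g y) / 3) * h3
      · linear_combination (-(g y) / 3) * h0 - (g y / 3) * (om + om ^ 2) * h3
      · linear_combination (-(g y) / 3) * h0 - (g y / 3) * om * h3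
      · linear_combination (-(g y) / 3) * h0 - (g y / 3) * (om + om ^ 2) * h3
      · linear_combination (-(2 * g y) / 3) * (om ^ 3 + 1) * h3
    · simp [ten, eX, chi, cell]
  rw [hdec j, hdec (j + 2), Matrix.mulVec_add, Matrix.mulVec_add, Matrix.mulVec_smul,
    Matrix.mulVec_smul, Matrix.mulVec_smul, U_chi_om hg, U_chi_om2 hg, U_chi_one hg]
  have e1 : om ^ (2 * (j : ℕ)) * om = om ^ (2 * ((j + 2 : Fin 3) : ℕ)) := by
    fin_cases j
    · simp; exact h4.symm
    · simp; linear_combination h3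
    · simp; linear_combination om ^ 2 * h3
  have e2 : om ^ (j : ℕ) * om ^ 2 = om ^ ((j + 2 : Fin 3) : ℕ) := by
    fin_cases j
    · simp
    · simp; linear_combination h3
    · simp; linear_combination om * h3
  rw [← e1, ← e2]
  module

lemma eigY {φ : ℂ} (hφ : φ ^ 2 = -108) :
    GY.skew *ᵥ cellY (fun _ => 1) (φ / 54) = φ • cellY (fun _ => 1) (φ / 54) := by
  rw [skewY_cell]
  ext v
  rcases v with j | x
  · simp only [cellY, Pi.smul_apply, smul_eq_mul]; ring
  · simp only [cellY, Pi.smul_apply, smul_eq_mul]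
    linear_combination (-1 / 54 : ℂ) * hφ

lemma eigY0 : GY.skew *ᵥ cellY (fun l => (-1) ^ (l : ℕ)) 0 =
    (0 : ℂ) • cellY (fun l => (-1) ^ (l : ℕ)) 0 := by
  rw [skewY_cell]
  ext v
  rcases v with j | x <;> simp [cellY]

lemma phi_sq : (6 * (Real.sqrt 3 : ℝ) * I : ℂ) ^ 2 = -108 := by
  linear_combination 36 * Complex.I ^ 2 * sq3 + 108 * Complex.I_sq

lemma exp_phi : Complex.exp (-((t₀ : ℂ) * (6 * (Real.sqrt 3 : ℝ) * I))) = -1 := by
  have hs := sqrt3_ne
  have h : -((t₀ : ℂ) * (6 * (Real.sqrt 3 : ℝ) * I)) = -(Real.pi * I) := by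
    unfold t₀
    push_cast
    field_simp
  rw [h, Complex.exp_neg, Complex.exp_pi_mul_I]
  norm_num

lemma exp_phi' : Complex.exp (-((t₀ : ℂ) * (-(6 * (Real.sqrt 3 : ℝ) * I)))) = -1 := by
  have hs := sqrt3_ne
  have h : -((t₀ : ℂ) * (-(6 * (Real.sqrt 3 : ℝ) * I))) = Real.pi * I := by
    unfold t₀
    push_cast
    field_simp
  rw [h, Complex.exp_pi_mul_I]

lemma ten_dec (f : VX → ℂ) (l : Fin 2) : ten f (eY l) =
    (1 / 4 : ℂ) • ten f (cellY (fun _ => 1) ((6 * (Real.sqrt 3 : ℝ) * I) / 54)) +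
    (1 / 4 : ℂ) • ten f (cellY (fun _ => 1) ((-(6 * (Real.sqrt 3 : ℝ) * I)) / 54)) +
    ((-1) ^ (l : ℕ) / 2 : ℂ) • ten f (cellY (fun l => (-1) ^ (l : ℕ)) 0) := by
  ext ⟨v, y⟩
  rcases y with l' | x
  · simp only [ten, eY, cellY, Pi.add_apply, Pi.smul_apply, smul_eq_mul]
    fin_cases l <;> fin_cases l' <;> simp <;> ring
  · simp only [ten, eY, cellY, Pi.add_apply, Pi.smul_apply, smul_eq_mul]
    ring

/-- The transition matrix at time `t₀` moves the six special vertices in a cycle. -/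
lemma U_step (j : Fin 3) (l : Fin 2) :
    G.U t₀ *ᵥ ten (eX j) (eY l) = (-1 : ℂ) • ten (eX (j + 2)) (eY (l + 1)) := by
  have h1 := U_eX (eigY phi_sq) j
  have h2 := U_eX (eigY (φ := -(6 * (Real.sqrt 3 : ℝ) * I)) (by rw [neg_sq]; exact phi_sq)) j
  have h3 := U_eX eigY0 j
  rw [exp_phi] at h1
  rw [exp_phi'] at h2
  rw [mul_zero, neg_zero, Complex.exp_zero] at h3
  rw [ten_dec (eX j) l, ten_dec (eX (j + 2)) (l + 1), Matrix.mulVec_add, Matrix.mulVec_add,
    Matrix.mulVec_smul, Matrix.mulVec_smul, Matrix.mulVec_smul, h1, h2, h3]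
  have e : ((-1 : ℂ) ^ ((l + 1 : Fin 2) : ℕ)) = -((-1) ^ (l : ℕ)) := by
    fin_cases l <;> simp
  rw [e]
  module

/-- The cyclic motion. -/
def step (p : Fin 3 × Fin 2) : Fin 3 × Fin 2 := (p.1 + 2, p.2 + 1)

/-- The six special vertices. -/
def sp (p : Fin 3 × Fin 2) : VX × VY := (Sum.inl p.1, Sum.inl p.2)

lemma sp_injective : Function.Injective sp := by
  rintro ⟨a, b⟩ ⟨c, d⟩ h
  simp only [sp, Prod.mk.injEq, Sum.inl.injEq] at h
  exact Prod.ext h.1 h.2

lemma U_nsmul {V : Type} [Fintype V] [DecidableEq V] (X : OrientedGraph V) (t : ℝ) (n : ℕ) :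
    X.U (n * t) = X.U t ^ n := by
  unfold OrientedGraph.U
  have h : (I * ((n * t : ℝ) : ℂ)) • (I • X.skew) = n • ((I * (t : ℂ)) • (I • X.skew)) := by
    rw [← Nat.cast_smul_eq_nsmul ℂ, smul_smul (n : ℂ)]
    congr 1
    push_cast
    ring
  rw [← Matrix.exp_nsmul, h]

lemma U_iter (n : ℕ) (p : Fin 3 × Fin 2) :
    (G.U t₀) ^ n *ᵥ Pi.single (sp p) 1 = ((-1 : ℂ) ^ n) • Pi.single (sp (step^[n] p)) 1 := by
  induction n with
  | zero =>
    rw [pow_zero, pow_zero, Matrix.one_mulVec, one_smul]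
    rfl
  | succ n ih =>
    rw [pow_succ', ← Matrix.mulVec_mulVec, ih, Matrix.mulVec_smul, Function.iterate_succ_apply']
    set q := step^[n] p
    have h : G.U t₀ *ᵥ Pi.single (sp q) 1 = (-1 : ℂ) • Pi.single (sp (step q)) 1 := by
      have := U_step q.1 q.2
      rw [ten_e, ten_e] at this
      exact this
    rw [h, smul_smul, pow_succ]

lemma step_transitive : ∀ p q : Fin 3 × Fin 2, ∃ n : Fin 6, step^[(n : ℕ)] p = q := by decide

/-- There is an unweighted oriented graph with multiple state transfer on a set of six vertices. -/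
theorem main : ∃ (V : Type) (_ : Fintype V) (_ : DecidableEq V) (X : OrientedGraph V)
    (S : Finset V), S.card = 6 ∧ X.MultipleStateTransfer S := by
  classical
  refine ⟨VX × VY, inferInstance, inferInstance, G, Finset.univ.image sp, ?_, ?_, ?_⟩
  · rw [Finset.card_image_of_injective _ sp_injective]; simp
  · rw [Finset.card_image_of_injective _ sp_injective]; simp
  · intro a ha b hb _
    obtain ⟨p, -, rfl⟩ := Finset.mem_image.mp ha
    obtain ⟨q, -, rfl⟩ := Finset.mem_image.mp hb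
    obtain ⟨n, hn⟩ := step_transitive p q
    refine ⟨((n : ℕ) : ℝ) * t₀, (-1) ^ (n : ℕ), ?_⟩
    rw [U_nsmul, U_iter, hn]

end Pool.Agent.Helper29.MST
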