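import Pool.Agent.Helper5.N2.Stmts2

/-!
# Row MAX: first and second order conditions at a local maximum
-/

set_option autoImplicit false
open scoped ContDiff

namespace N29

open N2

/-- real part of a smooth function along a line -/
lemma hasDerivAt_line (f : Sm) (p v : ℝ × ℝ) (r : ℝ) :
    HasDerivAt (fun r : ℝ => (f.val (p + r • v)).re) (((pd v f).val (p + r • v)).re) r := by
  have h1 : HasDerivAt (fun r : ℝ => p + r • v) v r := by
    have := ((hasDerivAt_id r).smul_const v).const_add p
    simpa using this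
  have h2 : HasFDerivAt f.val (fderiv ℝ f.val (p + r • v)) (p + r • v) :=
    (f.diff (p + r • v)).hasFDerivAt
  have h3 : HasDerivAt (fun r : ℝ => f.val (p + r • v)) (fderiv ℝ f.val (p + r • v) v) r :=
    h2.comp_hasDerivAt r h1
  have h4 := (Complex.reCLM.hasFDerivAt (x := f.val (p + r • v))).comp_hasDerivAt r h3
  exact h4

lemma pd_lin (f : Sm) (s t : ℝ) :
    pd (s, t) f = cst (s : ℂ) * pd (1, 0) f + cst (t : ℂ) * pd (0, 1) f := by
  apply Sm.ext; intro p
  simp only [add_val, mul_val, cst_val, pd_apply]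
  have h : ((s, t) : ℝ × ℝ) = s • ((1, 0) : ℝ × ℝ) + t • ((0, 1) : ℝ × ℝ) := by
    ext <;> simp
  rw [h, map_add, map_smul, map_smul]
  simp

lemma im_zero {f : Sm} (h : cj f = f) (p : ℝ × ℝ) : (f.val p).im = 0 := by
  have h1 : (cj f).val p = f.val p := by rw [h]
  rw [cj_val] at h1
  exact Complex.conj_eq_iff_im.1 h1

lemma cj_pd {f : Sm} (h : cj f = f) (e : ℝ × ℝ) : cj (pd e f) = pd e f := by
  have h1 : pd e (Sm.conj f) = Sm.conj (pd e f) := pd_conj e f
  have h2 : Sm.conj f = f := h
  rw [h2] at h1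
  exact h1.symm

/-- first and second order conditions along a direction -/
lemma line_max (f : Sm) (p v : ℝ × ℝ) (hm : IsLocalMax (fun x => (f.val x).re) p) :
    ((pd v f).val p).re = 0 ∧ ((pd v (pd v f)).val p).re ≤ 0 := by
  set g : ℝ → ℝ := fun r => (f.val (p + r • v)).re with hg
  have hgd : ∀ r, HasDerivAt g (((pd v f).val (p + r • v)).re) r := fun r => hasDerivAt_line f p v r
  have hcont : Continuous (fun r : ℝ => p + r • v) := by fun_prop
  have hgm : IsLocalMax g 0 := by
    have h0 : Filter.Tendsto (fun r : ℝ => p + r • v) (nhds 0) (nhds p) := by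
      have := hcont.tendsto 0
      simpa using this
    have h1 : ∀ᶠ r in nhds (0 : ℝ), (f.val (p + r • v)).re ≤ (f.val p).re := h0.eventually hm
    filter_upwards [h1] with r hr
    simpa [hg] using hr
  have hd0 : deriv g 0 = 0 := hgm.deriv_eq_zero
  have hder : deriv g = fun r => ((pd v f).val (p + r • v)).re := funext fun r => (hgd r).deriv
  have h1 : ((pd v f).val p).re = 0 := by
    rw [hder] at hd0
    simpa using hd0
  refine ⟨h1, ?_⟩
  by_contra hc
  push Not at hc
  have hdd : deriv (deriv g) 0 = ((pd v (pd v f)).val p).re := by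
    rw [hder]
    have := (hasDerivAt_line (pd v f) p v 0).deriv
    simpa using this
  have hmin : IsLocalMin g 0 :=
    isLocalMin_of_deriv_deriv_pos (by rw [hdd]; exact hc) hd0 (hgd 0).continuousAt
  have heq : g =ᶠ[nhds 0] fun _ => g 0 := by
    filter_upwards [hgm, hmin] with r h1 h2
    exact le_antisymm h1 h2
  have h3 : deriv g =ᶠ[nhds 0] fun _ => 0 := by
    have := heq.deriv
    simpa using this
  have h4 : deriv (deriv g) 0 = 0 := by
    have := h3.deriv_eq
    simpa using this
  rw [hdd] at h4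
  exact hc.ne' h4

theorem st_MAX : ST_MAX := by
  intro f p hf hm
  have hx := line_max f p (1, 0) hm
  have hy := line_max f p (0, 1) hm
  have hix : ((pd (1, 0) f).val p).im = 0 := im_zero (cj_pd hf _) p
  have hiy : ((pd (0, 1) f).val p).im = 0 := im_zero (cj_pd hf _) p
  have h1 : (pd (1, 0) f).val p = 0 := Complex.ext hx.1 hix
  have h2 : (pd (0, 1) f).val p = 0 := Complex.ext hy.1 hiy
  -- second derivatives
  set a : ℝ := ((pd (1, 0) (pd (1, 0) f)).val p).re with ha
  set b : ℝ := ((pd (1, 0) (pd (0, 1) f)).val p).re with hb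
  set c : ℝ := ((pd (0, 1) (pd (0, 1) f)).val p).re with hc
  have ha' : (pd (1, 0) (pd (1, 0) f)).val p = (a : ℂ) :=
    Complex.ext rfl (by rw [im_zero (cj_pd (cj_pd hf _) _) p]; rfl)
  have hb' : (pd (1, 0) (pd (0, 1) f)).val p = (b : ℂ) :=
    Complex.ext rfl (by rw [im_zero (cj_pd (cj_pd hf _) _) p]; rfl)
  have hb'' : (pd (0, 1) (pd (1, 0) f)).val p = (b : ℂ) := by rw [pd_comm, hb']
  have hc' : (pd (0, 1) (pd (0, 1) f)).val p = (c : ℂ) :=
    Complex.ext rfl (by rw [im_zero (cj_pd (cj_pd hf _) _) p]; rfl)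
  have hq : ∀ s t : ℝ, a * s ^ 2 + 2 * b * s * t + c * t ^ 2 ≤ 0 := by
    intro s t
    have h := (line_max f p (s, t) hm).2
    have hval : (pd (s, t) (pd (s, t) f)).val p
        = ((a * s ^ 2 + 2 * b * s * t + c * t ^ 2 : ℝ) : ℂ) := by
      rw [pd_lin (pd (s, t) f) s t, pd_lin f s t]
      simp only [pd_add, pd_mul, pd_cst, add_val, mul_val, cst_val, zero_val, ha', hb', hb'', hc']
      push_cast
      ring
    rw [hval, Complex.ofReal_re] at h
    exact h
  have hDD : ev p (D (D f)) = (1 / 4 : ℂ) * ((a - c : ℝ) - 2 * b * Complex.I) := by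
    have : D (D f) = cst (1 / 2) * (pd (1, 0) (cst (1 / 2) * (pd (1, 0) f - cst Complex.I * pd (0, 1) f))
      - cst Complex.I * pd (0, 1) (cst (1 / 2) * (pd (1, 0) f - cst Complex.I * pd (0, 1) f))) := rfl
    rw [ev_val, this]
    simp only [sub_eq_add_neg, pd_add, pd_neg, pd_mul, pd_cst, add_val, mul_val, neg_val, cst_val, zero_val,
      ha', hb', hb'', hc']
    push_cast
    linear_combination (c / 4 : ℂ) * Complex.I_sq
  have hD'D : ev p (D' (D f)) = ((a + c : ℝ) / 4 : ℂ) := by
    have : D' (D f) = cst (1 / 2) * (pd (1, 0) (cst (1 / 2) * (pd (1, 0) f - cst Complex.I * pd (0, 1) f))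
      + cst Complex.I * pd (0, 1) (cst (1 / 2) * (pd (1, 0) f - cst Complex.I * pd (0, 1) f))) := rfl
    rw [ev_val, this]
    simp only [sub_eq_add_neg, pd_add, pd_neg, pd_mul, pd_cst, add_val, mul_val, neg_val, cst_val, zero_val,
      ha', hb', hb'', hc']
    push_cast
    linear_combination (-c / 4 : ℂ) * Complex.I_sq
  refine ⟨?_, ?_⟩
  · rw [ev_val]
    have : D f = cst (1 / 2) * (pd (1, 0) f - cst Complex.I * pd (0, 1) f) := rfl
    rw [this]
    simp [h1, h2]
  · have h4 : ((a + c : ℝ) / 4 : ℂ).re = (a + c) / 4 := by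
      have : ((a + c : ℝ) / 4 : ℂ) = (((a + c) / 4 : ℝ) : ℂ) := by push_cast; ring
      rw [this, Complex.ofReal_re]
    rw [hDD, hD'D, h4]
    have hac : a + c ≤ 0 := by
      have h1 := hq 1 0
      have h2 := hq 0 1
      nlinarith
    have hdet : b ^ 2 ≤ a * c := by
      have hc0 : c ≤ 0 := by have := hq 0 1; nlinarith
      have ha0 : a ≤ 0 := by have := hq 1 0; nlinarith
      by_cases hcz : c = 0
      · have h5 : ∀ s : ℝ, a * s ^ 2 + 2 * b * s ≤ 0 := by
          intro s
          have := hq s 1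
          rw [hcz] at this
          nlinarith
        have hb0 : b = 0 := by
          by_contra hbn
          -- choose s = b * ε with small ε
          have hpos : 0 < b ^ 2 := by positivity
          have h6 := h5 (b / (1 - a))
          have h1a : 0 < 1 - a := by linarith
          have h7 : a * (b / (1 - a)) ^ 2 + 2 * b * (b / (1 - a)) = b ^ 2 * (2 - a) / (1 - a) ^ 2 := by
            field_simp
            ring
          rw [h7] at h6
          have h8 : 0 < b ^ 2 * (2 - a) / (1 - a) ^ 2 := by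
            apply div_pos (mul_pos hpos (by linarith)) (by positivity)
          linarith
        rw [hb0, hcz]; simp
      · have hcn : c < 0 := lt_of_le_of_ne hc0 hcz
        have h5 := hq (-c) b
        -- a c^2 - 2 b^2 c + c b^2 = c (a c - b^2) ≤ 0
        have h6 : c * (a * c - b ^ 2) ≤ 0 := by nlinarith
        by_contra h7
        push Not at h7
        have : 0 < c * (a * c - b ^ 2) := mul_pos_of_neg_of_neg hcn (by linarith)
        linarith
    have hnorm : ‖(1 / 4 : ℂ) * ((a - c : ℝ) - 2 * b * Complex.I)‖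
        = 1 / 4 * Real.sqrt ((a - c) ^ 2 + 4 * b ^ 2) := by
      have h14 : ‖(1 / 4 : ℂ)‖ = 1 / 4 := by
        rw [show (1 / 4 : ℂ) = ((1 / 4 : ℝ) : ℂ) by push_cast; ring, Complex.norm_real]
        norm_num
      have h8 : ((a - c : ℝ) - 2 * b * Complex.I : ℂ) = (⟨a - c, -(2 * b)⟩ : ℂ) := by
        apply Complex.ext <;> simp
      have h15 : ‖(⟨a - c, -(2 * b)⟩ : ℂ)‖ = Real.sqrt ((a - c) ^ 2 + 4 * b ^ 2) := by
        rw [Complex.norm_def, Complex.normSq_mk]
        congr 1; ring
      rw [norm_mul, h14, h8, h15]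
    rw [hnorm]
    have h9 : Real.sqrt ((a - c) ^ 2 + 4 * b ^ 2) ≤ -(a + c) := by
      apply Real.sqrt_le_iff.2
      exact ⟨by linarith, by nlinarith⟩
    linarith

end N29
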