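import Mathlib

set_option autoImplicit false

namespace Pool.Agent.Helper29.SMC

universe u

/-- A point: column, index in the column, level. -/
structure Pt : Type u where
  col : ℕ
  idx : ℕ
  lev : ℕ

/-- The position of a point; a positive multiple of `2 ^ col`. -/
def Pt.pos (p : Pt.{u}) : ℕ := (p.idx + 1) * 2 ^ p.col

lemma Pt.pos_pos (p : Pt.{u}) : 0 < p.pos := by
  unfold Pt.pos; positivity

lemma Pt.ext' {p q : Pt.{u}} (h1 : p.col = q.col) (h2 : p.pos = q.pos) (h3 : p.lev = q.lev) :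
    p = q := by
  obtain ⟨a, i, n⟩ := p
  obtain ⟨b, j, m⟩ := q
  simp only [Pt.pos] at *
  subst h1
  subst h3
  have h4 : (0 : ℕ) < 2 ^ a := by positivity
  have h5 : i + 1 = j + 1 := Nat.eq_of_mul_eq_mul_right h4 h2
  have h6 : i = j := by omega
  rw [h6]

/-- The order. -/
def Le (p q : Pt.{u}) : Prop :=
  q.lev + 2 ≤ p.lev ∨ (p.lev = q.lev ∧ p.col ≤ q.col ∧ p.pos ≤ q.pos) ∨
    (p.lev = q.lev + 1 ∧ (p.col < q.col ∨ p.pos ≤ q.pos ^ 2))

lemma Le.lev {p q : Pt.{u}} (h : Le p q) : q.lev ≤ p.lev := by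
  rcases h with h | h | h <;> omega

instance : PartialOrder Pt.{u} where
  le := Le
  le_refl p := Or.inr (Or.inl ⟨rfl, le_rfl, le_rfl⟩)
  le_trans p q r h1 h2 := by
    have l1 := Le.lev h1
    have l2 := Le.lev h2
    rcases h1 with h1 | ⟨h1, h1c, h1p⟩ | ⟨h1, h1'⟩
    · exact Or.inl (by omega)
    · rcases h2 with h2 | ⟨h2, h2c, h2p⟩ | ⟨h2, h2'⟩
      · exact Or.inl (by omega)
      · exact Or.inr (Or.inl ⟨by omega, by omega, by omega⟩)
      · refine Or.inr (Or.inr ⟨by omega, ?_⟩)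
        rcases h2' with h | h
        · left; omega
        · right; omega
    · rcases h2 with h2 | ⟨h2, h2c, h2p⟩ | ⟨h2, h2'⟩
      · exact Or.inl (by omega)
      · refine Or.inr (Or.inr ⟨by omega, ?_⟩)
        rcases h1' with h | h
        · left; omega
        · right
          exact h.trans (Nat.pow_le_pow_left h2p 2)
      · exact Or.inl (by omega)
  le_antisymm p q h1 h2 := by
    have l1 := Le.lev h1
    have l2 := Le.lev h2
    rcases h1 with h1 | ⟨h1, h1c, h1p⟩ | ⟨h1, h1'⟩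
    · omega
    · rcases h2 with h2 | ⟨h2, h2c, h2p⟩ | ⟨h2, h2'⟩
      · omega
      · exact Pt.ext' (by omega) (by omega) (by omega)
      · omega
    · omega

lemma le_def {p q : Pt.{u}} : p ≤ q ↔ q.lev + 2 ≤ p.lev ∨
    (p.lev = q.lev ∧ p.col ≤ q.col ∧ p.pos ≤ q.pos) ∨
    (p.lev = q.lev + 1 ∧ (p.col < q.col ∨ p.pos ≤ q.pos ^ 2)) := Iff.rfl

lemma lev_of_le {p q : Pt.{u}} (h : p ≤ q) : q.lev ≤ p.lev := Le.lev h

/-! ### No infinite antichain -/

lemma level_finite (A : Set Pt.{u}) (hA : IsAntichain (· ≤ ·) A) (n : ℕ) :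
    {p ∈ A | p.lev = n}.Finite := by
  let f : Pt.{u} → ℕ × ℕ := fun p => (p.col, p.pos)
  have hinj : Set.InjOn f {p ∈ A | p.lev = n} := by
    rintro p ⟨-, hp⟩ q ⟨-, hq⟩ h
    have h' : (p.col, p.pos) = (q.col, q.pos) := h
    rw [Prod.mk.injEq] at h'
    exact Pt.ext' h'.1 h'.2 (hp.trans hq.symm)
  apply Set.Finite.of_finite_image _ hinj
  apply WellQuasiOrderedLE.finite_of_isAntichain
  rintro _ ⟨p, ⟨hp, hpn⟩, rfl⟩ _ ⟨q, ⟨hq, hqn⟩, rfl⟩ hne hle
  have hpq : p ≠ q := fun h => hne (by rw [h])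
  apply hA hp hq hpq
  exact Or.inr (Or.inl ⟨hpn.trans hqn.symm, hle.1, hle.2⟩)

lemma fac (A : Set Pt.{u}) (hA : IsAntichain (· ≤ ·) A) : A.Finite := by
  classical
  by_cases hne : A.Nonempty
  · have hex : ∃ n, ∃ p ∈ A, p.lev = n := by
      obtain ⟨p, hp⟩ := hne
      exact ⟨_, p, hp, rfl⟩
    obtain ⟨p, hp, hpn⟩ := Nat.find_spec hex
    set n := Nat.find hex
    refine ((level_finite A hA n).union (level_finite A hA (n + 1))).subset ?_
    intro q hq
    have h1 : n ≤ q.lev := Nat.find_min' hex ⟨q, hq, rfl⟩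
    by_cases h2 : q.lev = n
    · exact Or.inl ⟨hq, h2⟩
    by_cases h3 : q.lev = n + 1
    · exact Or.inr ⟨hq, h3⟩
    exfalso
    have hne : q ≠ p := fun h => h2 (by rw [h]; exact hpn)
    exact hA hq hp hne (Or.inl (by omega))
  · rw [Set.not_nonempty_iff_eq_empty] at hne
    rw [hne]; exact Set.finite_empty

/-! ### Counting chains in one level -/

lemma card_le_of_chain {F : Finset Pt.{u}} (hF : IsChain (· ≤ ·) (F : Set Pt.{u})) {n s K Z : ℕ}
    (hlev : ∀ p ∈ F, p.lev = n) (hs : ∀ p ∈ F, s ≤ p.col) (hK : ∀ p ∈ F, p.col ≤ K)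
    (hZ : ∀ p ∈ F, p.pos ≤ Z) : F.card ≤ Z / 2 ^ s + K + 1 := by
  classical
  have h : F.card ≤ (Finset.range (Z / 2 ^ s + K + 1)).card := by
    apply Finset.card_le_card_of_injOn (fun p => p.pos / 2 ^ s + p.col)
    · intro p hp
      have hp' : p ∈ F := hp
      simp only [Finset.coe_range, Set.mem_Iio]
      have h1 := Nat.div_le_div_right (c := 2 ^ s) (hZ p hp')
      have h2 := hK p hp'
      omega
    · have key : ∀ p ∈ F, ∀ q ∈ F, p ≤ q → p.pos / 2 ^ s + p.col = q.pos / 2 ^ s + q.col →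
          p = q := by
        intro p hp q hq hle heq
        have hle' : p.lev = q.lev ∧ p.col ≤ q.col ∧ p.pos ≤ q.pos := by
          rcases hle with h | h | h
          · have := hlev p hp; have := hlev q hq; omega
          · exact h
          · have := hlev p hp; have := hlev q hq; omega
        obtain ⟨h1, h2, h3⟩ := hle'
        have h4 := Nat.div_le_div_right (c := 2 ^ s) h3
        have h5 : p.col = q.col := by omega
        have h6 : p.pos / 2 ^ s = q.pos / 2 ^ s := by omega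
        have d1 : 2 ^ s ∣ p.pos :=
          (pow_dvd_pow 2 (hs p hp)).trans (Dvd.intro_left _ rfl)
        have d2 : 2 ^ s ∣ q.pos :=
          (pow_dvd_pow 2 (hs q hq)).trans (Dvd.intro_left _ rfl)
        have h7 : p.pos = q.pos := by
          rw [← Nat.div_mul_cancel d1, ← Nat.div_mul_cancel d2, h6]
        exact Pt.ext' h5 h7 h1
      intro p hp q hq heq
      rcases hF.total hp hq with h | h
      · exact key p hp q hq h heq
      · exact (key q hq p hp h heq.symm).symm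
  simpa using h

lemma finite_box (n K Z : ℕ) : {p : Pt.{u} | p.lev = n ∧ p.col ≤ K ∧ p.pos ≤ Z}.Finite := by
  let f : Pt.{u} → ℕ × ℕ := fun p => (p.col, p.pos)
  have hinj : Set.InjOn f {p : Pt.{u} | p.lev = n ∧ p.col ≤ K ∧ p.pos ≤ Z} := by
    rintro p ⟨hp, -⟩ q ⟨hq, -⟩ h
    have h' : (p.col, p.pos) = (q.col, q.pos) := h
    rw [Prod.mk.injEq] at h'
    exact Pt.ext' h'.1 h'.2 (hp.trans hq.symm)
  apply Set.Finite.of_finite_image _ hinj
  refine ((Set.finite_Iic K).prod (Set.finite_Iic Z)).subset ?_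
  rintro _ ⟨p, ⟨-, h1, h2⟩, rfl⟩
  exact ⟨h1, h2⟩

/-- A segment of a column. -/
def seg (k n a b : ℕ) : Finset Pt.{u} :=
  (Finset.Ico a b).map ⟨fun i => ⟨k, i, n⟩, fun i j h => by
    simpa using congrArg Pt.idx h⟩

lemma card_seg (k n a b : ℕ) : (seg.{u} k n a b).card = b - a := by
  simp [seg]

lemma mem_seg {k n a b : ℕ} {p : Pt.{u}} (h : p ∈ seg.{u} k n a b) :
    p.col = k ∧ p.lev = n ∧ a ≤ p.idx ∧ p.idx < b := by
  rw [seg, Finset.mem_map] at h
  obtain ⟨i, hi, rfl⟩ := h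
  rw [Finset.mem_Ico] at hi
  exact ⟨rfl, rfl, hi.1, hi.2⟩

lemma chain_seg (k n a b : ℕ) : IsChain (· ≤ ·) (seg.{u} k n a b : Set Pt.{u}) := by
  have key : ∀ p q : Pt.{u}, p.col = k → q.col = k → p.lev = n → q.lev = n → p.idx ≤ q.idx →
      p ≤ q := by
    intro p q h1 h2 h3 h4 h5
    refine Or.inr (Or.inl ⟨h3.trans h4.symm, by omega, ?_⟩)
    unfold Pt.pos
    rw [h1, h2]
    exact Nat.mul_le_mul_right _ (by omega)
  intro p hp q hq _
  obtain ⟨h1, h2, -, -⟩ := mem_seg hp
  obtain ⟨h3, h4, -, -⟩ := mem_seg hq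
  rcases le_total p.idx q.idx with h | h
  · exact Or.inl (key p q h1 h3 h2 h4 h)
  · exact Or.inr (key q p h3 h1 h4 h2 h)

/-! ### The exchange lemma -/

lemma exch {C : Set Pt.{u}} (hC : IsChain (· ≤ ·) C)
    (hSM : ∀ D : Set Pt.{u}, IsChain (· ≤ ·) D →
      Cardinal.mk ↥(D \ C) ≤ Cardinal.mk ↥(C \ D))
    (F E : Finset Pt.{u}) (hF : ∀ x ∈ F, x ∈ C) (hEF : ∀ x ∈ E, x ∈ C → x ∈ F)
    (hE : IsChain (· ≤ ·) (E : Set Pt.{u}))
    (hcomp : ∀ e ∈ E, ∀ c ∈ C, c ∉ F → c ≤ e ∨ e ≤ c) : E.card ≤ F.card := by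
  classical
  have hD : IsChain (· ≤ ·) ((C \ F) ∪ E : Set Pt.{u}) := by
    intro x hx y hy hxy
    rcases hx with hx | hx <;> rcases hy with hy | hy
    · exact hC hx.1 hy.1 hxy
    · exact hcomp y hy x hx.1 hx.2
    · exact (hcomp x hx y hy.1 hy.2).symm
    · exact hE hx hy hxy
  have h1 := hSM _ hD
  have e1 : ((C \ F) ∪ E : Set Pt.{u}) \ C = ((E \ F : Finset Pt.{u}) : Set Pt.{u}) := by
    ext x
    simp only [Set.mem_sdiff, Set.mem_union, Finset.mem_coe, Finset.coe_sdiff]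
    constructor
    · rintro ⟨h | h, h'⟩
      · exact absurd h.1 h'
      · exact ⟨h, fun h'' => h' (hF x h'')⟩
    · rintro ⟨h, h'⟩
      exact ⟨Or.inr h, fun h'' => h' (hEF x h h'')⟩
  have e2 : C \ ((C \ F) ∪ E : Set Pt.{u}) = ((F \ E : Finset Pt.{u}) : Set Pt.{u}) := by
    ext x
    simp only [Set.mem_sdiff, Set.mem_union, Finset.mem_coe, Finset.coe_sdiff, not_or, not_and,
      not_not]
    constructor
    · rintro ⟨h, h', h''⟩
      exact ⟨h' h, h''⟩
    · rintro ⟨h, h'⟩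
      exact ⟨hF x h, fun _ => h, h'⟩
  rw [e1, e2] at h1
  have f1 : Cardinal.mk ↥((E \ F : Finset Pt.{u}) : Set Pt.{u}) = ((E \ F).card : Cardinal.{u}) :=
    Cardinal.mk_coe_finset
  have f2 : Cardinal.mk ↥((F \ E : Finset Pt.{u}) : Set Pt.{u}) = ((F \ E).card : Cardinal.{u}) :=
    Cardinal.mk_coe_finset
  rw [f1, f2, Nat.cast_le] at h1
  have h2 := Finset.card_sdiff_add_card_inter E F
  have h3 := Finset.card_sdiff_add_card_inter F E
  rw [Finset.inter_comm] at h3
  omega

/-! ### Claim A: bounded columns -/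

section Claims

variable {C : Set Pt.{u}} (hC : IsChain (· ≤ ·) C)
    (hSM : ∀ D : Set Pt.{u}, IsChain (· ≤ ·) D →
      Cardinal.mk ↥(D \ C) ≤ Cardinal.mk ↥(C \ D))

include hC in
lemma le_of_col_lt {p q : Pt.{u}} (hp : p ∈ C) (hq : q ∈ C) (hl : p.lev = q.lev)
    (h : p.col < q.col) : p ≤ q := by
  rcases hC.total hp hq with h1 | h1
  · exact h1
  · rcases h1 with h2 | h2 | h2 <;> omega

include hC in
lemma le_of_pos_lt {p q : Pt.{u}} (hp : p ∈ C) (hq : q ∈ C) (hl : p.lev = q.lev)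
    (h : p.pos < q.pos) : p ≤ q := by
  rcases hC.total hp hq with h1 | h1
  · exact h1
  · rcases h1 with h2 | h2 | h2 <;> omega

lemma same_level {p q : Pt.{u}} (h : p ≤ q) (hl : p.lev = q.lev) :
    p.col ≤ q.col ∧ p.pos ≤ q.pos := by
  rcases h with h2 | h2 | h2
  · omega
  · exact h2.2
  · omega

include hC in
lemma le_of_lev_lt {p q : Pt.{u}} (hp : p ∈ C) (hq : q ∈ C) (hl : q.lev < p.lev) : p ≤ q := by
  rcases hC.total hp hq with h1 | h1
  · exact h1
  · have := lev_of_le h1; omega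

include hC hSM in
lemma claimA (n : ℕ) : ∃ K, ∀ c ∈ C, c.lev = n → c.col ≤ K := by
  classical
  by_contra hcon
  push Not at hcon
  obtain ⟨c0, h0C, h0l, -⟩ := hcon 0
  obtain ⟨c1, h1C, h1l, h1⟩ := hcon c0.col
  set m := c0.col with hm
  set w := c1.pos with hw
  obtain ⟨c2, h2C, h2l, h2⟩ := hcon (c1.col + m + 1 + (w + m + 3))
  have h01 : c0 ≤ c1 := le_of_col_lt hC h0C h1C (h0l.trans h1l.symm) h1
  have h12 : c1 ≤ c2 := le_of_col_lt hC h1C h2C (h1l.trans h2l.symm) (by omega)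
  have h01' := same_level h01 (h0l.trans h1l.symm)
  set z := c2.pos with hz
  -- the removed part
  have hfin : {p ∈ C | p.lev = n ∧ m < p.col ∧ p ≤ c2 ∧ p ≠ c2}.Finite := by
    refine (finite_box n c2.col z).subset ?_
    rintro p ⟨-, hpl, -, hp2, -⟩
    have := same_level hp2 (hpl.trans h2l.symm)
    exact ⟨hpl, this.1, this.2⟩
  set F : Finset Pt.{u} := hfin.toFinset with hF
  have hFm : ∀ p, p ∈ F ↔ p ∈ C ∧ p.lev = n ∧ m < p.col ∧ p ≤ c2 ∧ p ≠ c2 := by
    intro p; rw [hF, Set.Finite.mem_toFinset]; rfl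
  have hFcard : F.card ≤ z / 2 ^ (m + 1) + c2.col + 1 := by
    refine card_le_of_chain (n := n) ?_ ?_ ?_ ?_ ?_
    · intro p hp q hq hpq
      exact hC ((hFm p).mp hp).1 ((hFm q).mp hq).1 hpq
    · intro p hp; exact ((hFm p).mp hp).2.1
    · intro p hp; exact ((hFm p).mp hp).2.2.1
    · intro p hp
      obtain ⟨-, hpl, -, hp2, -⟩ := (hFm p).mp hp
      exact (same_level hp2 (hpl.trans h2l.symm)).1
    · intro p hp
      obtain ⟨-, hpl, -, hp2, -⟩ := (hFm p).mp hp
      exact (same_level hp2 (hpl.trans h2l.symm)).2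
  -- the inserted part
  have hexch := exch hC hSM F (seg m n (w / 2 ^ m) (z / 2 ^ m))
    (fun x hx => ((hFm x).mp hx).1)
    (by
      intro e he heC
      exfalso
      obtain ⟨e1, e2, e3, e4⟩ := mem_seg he
      have h5 : e ≤ c1 := le_of_col_lt hC heC h1C (e2.trans h1l.symm) (by omega)
      have h6 := (same_level h5 (e2.trans h1l.symm)).2
      have h7 : w < e.pos := by
        unfold Pt.pos
        rw [e1]
        have h8 : w < (w / 2 ^ m + 1) * 2 ^ m := by
          rw [mul_comm]; exact Nat.lt_mul_div_succ w (by positivity)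
        exact lt_of_lt_of_le h8 (Nat.mul_le_mul_right _ (by omega))
      omega)
    (chain_seg m n _ _)
    (by
      intro e he c hcC hcF
      obtain ⟨e1, e2, e3, e4⟩ := mem_seg he
      have hpos : w < e.pos := by
        unfold Pt.pos
        rw [e1]
        have h8 : w < (w / 2 ^ m + 1) * 2 ^ m := by
          rw [mul_comm]; exact Nat.lt_mul_div_succ w (by positivity)
        exact lt_of_lt_of_le h8 (Nat.mul_le_mul_right _ (by omega))
      have hpos2 : e.pos ≤ z := by
        unfold Pt.pos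
        rw [e1]
        calc (e.idx + 1) * 2 ^ m ≤ (z / 2 ^ m) * 2 ^ m := Nat.mul_le_mul_right _ (by omega)
          _ ≤ z := Nat.div_mul_le_self _ _
      have h0e : c0 ≤ e := Or.inr (Or.inl ⟨by omega, by omega, by omega⟩)
      have he2 : e ≤ c2 := Or.inr (Or.inl ⟨by omega, by omega, by omega⟩)
      rcases hC.total hcC h0C with h | h
      · exact Or.inl (h.trans h0e)
      rcases hC.total h2C hcC with h' | h'
      · exact Or.inr (he2.trans h')
      have l1 := lev_of_le h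
      have l2 := lev_of_le h'
      have hcl : c.lev = n := by omega
      by_cases hc2 : c = c2
      · right; rw [hc2]; exact he2
      by_cases hcm : m < c.col
      · exact absurd ((hFm c).mpr ⟨hcC, hcl, hcm, h', hc2⟩) hcF
      · left
        have h3 : c ≤ c1 := le_of_col_lt hC hcC h1C (hcl.trans h1l.symm) (by omega)
        have h4 := same_level h3 (hcl.trans h1l.symm)
        exact Or.inr (Or.inl ⟨by omega, by omega, by omega⟩))
  rw [card_seg] at hexch
  -- arithmetic
  obtain ⟨t, ht⟩ : ∃ t, c2.col = m + 1 + t := ⟨c2.col - (m + 1), by omega⟩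
  have ht2 : w + m + 3 < t := by omega
  have hzt : z = (c2.idx + 1) * 2 ^ t * 2 * 2 ^ m := by
    rw [hz]; unfold Pt.pos; rw [ht, pow_add, pow_succ]; ring
  have hzm : z / 2 ^ m = (c2.idx + 1) * 2 ^ t * 2 := by
    rw [hzt]; exact Nat.mul_div_cancel _ (by positivity)
  have hzm1 : z / 2 ^ (m + 1) = (c2.idx + 1) * 2 ^ t := by
    have : z = (c2.idx + 1) * 2 ^ t * 2 ^ (m + 1) := by rw [hzt, pow_succ]; ring
    rw [this]; exact Nat.mul_div_cancel _ (by positivity)
  rw [hzm] at hexch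
  rw [hzm1] at hFcard
  have hw2 : w / 2 ^ m ≤ w := Nat.div_le_self _ _
  have h2t : 2 * t ≤ 2 ^ t := by
    have h9 : ∀ t : ℕ, 3 ≤ t → 2 * t ≤ 2 ^ t := by
      intro t ht
      induction t, ht using Nat.le_induction with
      | base => norm_num
      | succ k hk ih => rw [pow_succ]; omega
    exact h9 t (by omega)
  have h2t' : 2 ^ t ≤ (c2.idx + 1) * 2 ^ t := Nat.le_mul_of_pos_left _ (by omega)
  omega

/-! ### Claim B: every level is met infinitely often -/

lemma unbounded_pos {n K : ℕ} (hK : ∀ c ∈ C, c.lev = n → c.col ≤ K)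
    (hinf : {c ∈ C | c.lev = n}.Infinite) (Z : ℕ) : ∃ c ∈ C, c.lev = n ∧ Z < c.pos := by
  by_contra hcon
  push Not at hcon
  apply hinf
  refine (finite_box n K Z).subset ?_
  rintro p ⟨hp, hpl⟩
  exact ⟨hpl, hK p hp hpl, hcon p hp hpl⟩

include hC hSM in
lemma claimB (n : ℕ) : {c ∈ C | c.lev = n}.Infinite := by
  classical
  intro hfin
  obtain ⟨K, hK⟩ := claimA hC hSM (n + 1)
  by_cases hcase : {c ∈ C | c.lev + 1 = n}.Finite
  · -- two finite levels in a row
    set F : Finset Pt.{u} := hfin.toFinset ∪ hcase.toFinset with hF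
    have hFm : ∀ p, p ∈ F ↔ p ∈ C ∧ (p.lev = n ∨ p.lev + 1 = n) := by
      intro p
      rw [hF, Finset.mem_union, Set.Finite.mem_toFinset, Set.Finite.mem_toFinset]
      constructor
      · rintro (h | h)
        · exact ⟨h.1, Or.inl h.2⟩
        · exact ⟨h.1, Or.inr h.2⟩
      · rintro ⟨h, h' | h'⟩
        · exact Or.inl ⟨h, h'⟩
        · exact Or.inr ⟨h, h'⟩
    have hexch := exch hC hSM F (seg (K + 1) n 0 (F.card + 1))
      (fun x hx => ((hFm x).mp hx).1)
      (by
        intro e he heC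
        obtain ⟨e1, e2, e3, e4⟩ := mem_seg he
        exact (hFm e).mpr ⟨heC, Or.inl e2⟩)
      (chain_seg _ n _ _)
      (by
        intro e he c hcC hcF
        obtain ⟨e1, e2, e3, e4⟩ := mem_seg he
        have h1 : c.lev ≠ n := fun h => hcF ((hFm c).mpr ⟨hcC, Or.inl h⟩)
        have h2 : c.lev + 1 ≠ n := fun h => hcF ((hFm c).mpr ⟨hcC, Or.inr h⟩)
        rcases Nat.lt_or_ge c.lev n with h | h
        · right
          exact Or.inl (by omega)
        · left
          by_cases h3 : c.lev = n + 1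
          · have h4 := hK c hcC h3
            exact Or.inr (Or.inr ⟨by omega, Or.inl (by omega)⟩)
          · exact Or.inl (by omega))
    rw [card_seg] at hexch
    omega
  · -- the next level up is met infinitely often
    have hn : ∃ n', n = n' + 1 := by
      have hne : {c ∈ C | c.lev + 1 = n}.Nonempty := by
        rw [Set.nonempty_iff_ne_empty]
        intro h
        exact hcase (by rw [h]; exact Set.finite_empty)
      obtain ⟨c, -, hc⟩ := hne
      exact ⟨c.lev, hc.symm⟩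
    obtain ⟨n', rfl⟩ := hn
    have hinf : {c ∈ C | c.lev = n'}.Infinite := by
      intro h
      apply hcase
      refine h.subset ?_
      rintro c ⟨hc, hc'⟩
      exact ⟨hc, by omega⟩
    obtain ⟨K', hK'⟩ := claimA hC hSM n'
    set N := hfin.toFinset.card with hN
    obtain ⟨c2, h2C, h2l, h2⟩ := unbounded_pos hK' hinf (2 ^ (K + 1) * (N + K' + 3))
    set z := c2.pos with hz
    have hfin2 : {p ∈ C | p.lev = n' ∧ p ≤ c2 ∧ p ≠ c2}.Finite := by
      refine (finite_box n' K' z).subset ?_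
      rintro p ⟨hp, hpl, hp2, -⟩
      exact ⟨hpl, hK' p hp hpl, (same_level hp2 (hpl.trans h2l.symm)).2⟩
    have hF2card : hfin2.toFinset.card ≤ z / 2 ^ 0 + K' + 1 := by
      have hm : ∀ p, p ∈ hfin2.toFinset → p ∈ C ∧ p.lev = n' ∧ p ≤ c2 ∧ p ≠ c2 := by
        intro p hp; rwa [Set.Finite.mem_toFinset] at hp
      refine card_le_of_chain (n := n') ?_ ?_ ?_ ?_ ?_
      · intro p hp q hq hpq
        exact hC (hm p hp).1 (hm q hq).1 hpq
      · intro p hp; exact (hm p hp).2.1
      · intro p _; exact Nat.zero_le _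
      · intro p hp; exact hK' p (hm p hp).1 (hm p hp).2.1
      · intro p hp
        exact (same_level (hm p hp).2.2.1 ((hm p hp).2.1.trans h2l.symm)).2
    set F : Finset Pt.{u} := hfin.toFinset ∪ hfin2.toFinset with hF
    have hFm : ∀ p, p ∈ F ↔ p ∈ C ∧ (p.lev = n' + 1 ∨ (p.lev = n' ∧ p ≤ c2 ∧ p ≠ c2)) := by
      intro p
      rw [hF, Finset.mem_union, Set.Finite.mem_toFinset, Set.Finite.mem_toFinset]
      constructor
      · rintro (h | h)
        · exact ⟨h.1, Or.inl h.2⟩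
        · exact ⟨h.1, Or.inr h.2⟩
      · rintro ⟨h, h' | h'⟩
        · exact Or.inl ⟨h, h'⟩
        · exact Or.inr ⟨h, h'⟩
    have hFcard : F.card ≤ N + (z + K' + 1) := by
      have := Finset.card_union_le hfin.toFinset hfin2.toFinset
      rw [← hF] at this
      rw [pow_zero, Nat.div_one] at hF2card
      omega
    have hexch := exch hC hSM F (seg (K + 1) (n' + 1) 0 (z ^ 2 / 2 ^ (K + 1)))
      (fun x hx => ((hFm x).mp hx).1)
      (by
        intro e he heC
        obtain ⟨e1, e2, e3, e4⟩ := mem_seg he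
        exact (hFm e).mpr ⟨heC, Or.inl e2⟩)
      (chain_seg _ _ _ _)
      (by
        intro e he c hcC hcF
        obtain ⟨e1, e2, e3, e4⟩ := mem_seg he
        have hpos : e.pos ≤ z ^ 2 := by
          unfold Pt.pos
          rw [e1]
          calc (e.idx + 1) * 2 ^ (K + 1) ≤ (z ^ 2 / 2 ^ (K + 1)) * 2 ^ (K + 1) :=
                Nat.mul_le_mul_right _ (by omega)
            _ ≤ z ^ 2 := Nat.div_mul_le_self _ _
        have he2 : e ≤ c2 := Or.inr (Or.inr ⟨by omega, Or.inr hpos⟩)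
        have h1 : c.lev ≠ n' + 1 := fun h => hcF ((hFm c).mpr ⟨hcC, Or.inl h⟩)
        rcases Nat.lt_or_ge c.lev (n' + 1) with h | h
        · right
          by_cases h3 : c.lev = n'
          · rcases hC.total h2C hcC with h4 | h4
            · exact he2.trans h4
            · by_cases h5 : c = c2
              · rw [h5]; exact he2
              · exact absurd ((hFm c).mpr ⟨hcC, Or.inr ⟨h3, h4, h5⟩⟩) hcF
          · exact Or.inl (by omega)
        · left
          by_cases h3 : c.lev = n' + 1 + 1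
          · have h4 := hK c hcC h3
            exact Or.inr (Or.inr ⟨by omega, Or.inl (by omega)⟩)
          · exact Or.inl (by omega))
    rw [card_seg, Nat.sub_zero] at hexch
    -- arithmetic
    have h3 : z * (N + K' + 3) ≤ z ^ 2 / 2 ^ (K + 1) := by
      rw [Nat.le_div_iff_mul_le (by positivity)]
      calc z * (N + K' + 3) * 2 ^ (K + 1) = z * (2 ^ (K + 1) * (N + K' + 3)) := by ring
        _ ≤ z * z := Nat.mul_le_mul_left _ h2.le
        _ = z ^ 2 := by ring
    have hz1 : 1 ≤ z := c2.pos_pos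
    have h4 : z + (N + K' + 2) ≤ z * (N + K' + 3) := by nlinarith
    omega

/-! ### Claim C: columns climb -/

include hC hSM in
lemma claimC (j : ℕ) : ∀ n, ∃ c ∈ C, c.lev = n ∧ j ≤ c.col := by
  induction j with
  | zero =>
    intro n
    obtain ⟨c, hc⟩ := (claimB hC hSM n).nonempty
    exact ⟨c, hc.1, hc.2, Nat.zero_le _⟩
  | succ j ih =>
    intro n
    obtain ⟨c', hc', hl', hj'⟩ := ih (n + 1)
    obtain ⟨c, hc⟩ := (claimB hC hSM n).nonempty
    obtain ⟨K, hK⟩ := claimA hC hSM (n + 1)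
    obtain ⟨c'', hc'', hl'', hp''⟩ :=
      unbounded_pos hK (claimB hC hSM (n + 1)) (max c'.pos (c.pos ^ 2))
    have h1 : c' ≤ c'' := le_of_pos_lt hC hc' hc'' (hl'.trans hl''.symm)
      (lt_of_le_of_lt (le_max_left _ _) hp'')
    have h2 := (same_level h1 (hl'.trans hl''.symm)).1
    have hcl : c.lev = n := hc.2
    have h3 : c'' ≤ c := le_of_lev_lt hC hc'' hc.1 (by omega)
    have h4 : c.pos ^ 2 < c''.pos := lt_of_le_of_lt (le_max_right _ _) hp''
    refine ⟨c, hc.1, hc.2, ?_⟩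
    rcases h3 with h | h | ⟨-, h | h⟩
    · omega
    · omega
    · omega
    · omega

include hC hSM in
lemma no_SMC : False := by
  obtain ⟨K, hK⟩ := claimA hC hSM 0
  obtain ⟨c, hc, hl, hj⟩ := claimC hC hSM (K + 1) 0
  have := hK c hc hl
  omega

end Claims

end Pool.Agent.Helper29.SMC
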